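import Mathlib

namespace Pool.Agent.MP_b1d139_an

/-- The set of `q`-expansions of `x`: digit sequences (`true` is the digit 1, `false` the digit 0,
`e i` is the digit of place `i + 1`) whose series converges to `x`. -/
def Expansions (q x : ℝ) : Set (ℕ → Bool) :=
  {e | HasSum (fun i => (if e i then (1 : ℝ) else 0) / q ^ (i + 1)) x}

/-- The bases `q ∈ (1, 2)` in which some `x ∈ (0, 1 / (q - 1))` has exactly `ℵ₀` expansions. -/
def BAleph0 : Set ℝ :=
  {q | q ∈ Set.Ioo (1 : ℝ) 2 ∧
    ∃ x ∈ Set.Ioo 0 (1 / (q - 1)), Cardinal.mk (Expansions q x) = Cardinal.aleph0}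

end Pool.Agent.MP_b1d139_an
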