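import Pool.Agent.MP_b1d139_an.CoreA
import Pool.Agent.MP_b1d139_an.Defs

attribute [-instance] Fintype.decidableForallFintype AddQuantale.instAddLeftMono
  IdemSemiring.toCanonicallyOrderedAdd NumberField.to_charZero Finset.decidableDforallFinset
  NormedAlgebra.toAlgebra AddQuantale.instAddRightMono Multiset.decidableDforallMultiset
  Vector.instDecidableForallForallMemOfDecidablePred Option.decidableForallMem
  Array.instDecidableForallForallMemOfDecidablePred RKHS.instFunLike Int.decidableLTLE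
  Int.decidableLELT Int.decidableLELE Quantale.instMulRightMono Int.decidableLTLT
  ContinuousSemilinearMapClass.toSemilinearMapClass CompletePartialOrder.toPartialOrder
  DivisionRing.toRing TotallySeparatedSpace.t2Space CoalgHomClass.toSemilinearMapClass
  littleWedderburn NeZero.of_gt' Group.IsPerfect.subsingleton_of_isMulCommutative
  MonTypeEquivalenceMon.monMonoid NormedRing.toRing AddCommGroupWithOne.toAddGroupWithOne
  IdemSemiring.toSemiring Fintype.decidableExistsFintype Invertible.toNeZero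
  NormedCommRing.toCommRing TestFunctionClass.toDFunLike ContDiffMapSupportedInClass.toDFunLike
  instNonUnitalAlgHomClassOfNonUnitalAlgEquivClass CStarAlgebra.instOrderClosedTopology

/-! No pure point lies in the middle interval. -/

namespace Pool.Agent.MP_b1d139_an

structure Hy (q : ℝ) (g : ℕ → Bool) : Prop where
  J : Jf q
  F : val q (al g) = 1
  st : ∀ i < 3, g i = true
  nt : NoTriple g

def Special (g c : ℕ → Bool) : Prop :=
  ∃ L k, sh L c = sh k (al g) ∨ sh L c = ng (sh k (al g))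

def Pure (q : ℝ) (g : ℕ → Bool) (x : ℝ) : Prop :=
  (Ex q x).Countable ∧ ∀ c, val q c = x → ¬ Special g c

variable {q : ℝ} {g : ℕ → Bool}

theorem Special.of_sh {c : ℕ → Bool} (n : ℕ) (h : Special g (sh n c)) : Special g c := by
  obtain ⟨L, k, h⟩ := h
  exact ⟨L + n, k, by rwa [sh_sh] at h⟩

theorem Special.neg {c : ℕ → Bool} (h : Special g c) : Special g (ng c) := by
  obtain ⟨L, k, h | h⟩ := h
  · exact ⟨L, k, Or.inr (by rw [sh_ng, h])⟩
  · exact ⟨L, k, Or.inl (by rw [sh_ng, h, ng_ng])⟩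

theorem Pure.down (hq : 1 < q) {x : ℝ} (h : Pure q g x) (w : ℕ → Bool) (n : ℕ) :
    Pure q g (T q w x n) := by
  refine ⟨?_, fun c hc hs => h.2 _ (val_cat hq hc) (Special.of_sh n (by rwa [sh_cat]))⟩
  exact (h.1.preimage (cat_inj n w)).mono fun c hc => val_cat hq hc

theorem Pure.mirror (hq : 1 < q) {x : ℝ} (h : Pure q g x) : Pure q g (MM q - x) := by
  have e : ∀ c, val q c = MM q - x → val q (ng c) = x := fun c hc => by
    rw [val_ng hq, hc]; ring
  refine ⟨?_, fun c hc hs => h.2 _ (e c hc) hs.neg⟩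
  exact (h.1.preimage (f := ng) (Function.LeftInverse.injective ng_ng)).mono fun c hc => e c hc

theorem NoTriple.shift {u : ℕ → Bool} (h : NoTriple u) (k : ℕ) : NoTriple (sh k u) := by
  intro i hi
  refine h (i + k) ?_
  simp only [sh] at hi
  rwa [show i + 1 + k = i + k + 1 by ring, show i + 2 + k = i + k + 2 by ring,
    show i + 3 + k = i + k + 3 by ring] at hi

theorem NoTriple.neg {u : ℕ → Bool} (h : NoTriple u) : NoTriple (ng u) := by
  intro i hi
  exact h i (by simpa [ng] using hi)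

theorem mag (n : Nm q) {u c : ℕ → Bool} {X e : ℝ} {k : ℕ} (hX : X = V q u + e)
    (hR : ∀ i ≤ k, T q (psi c) X (4 * i) ∈ Rr q) (hne : ∃ i < k, c i ≠ u i) :
    ∃ i < k, 1.539 ≤ |q ^ (4 * (i + 1)) * e| ∧ |q ^ (4 * (i + 1)) * e| ≤ 1.918 := by
  have hq := n.one_lt
  obtain ⟨i0, hi0, hne⟩ := hne
  obtain ⟨i, h1, h2⟩ := first_diff (c := c) (d := u) (fun h => hne (by rw [h]))
  have hi : i < k := by
    by_contra h; exact hne (h2 i0 (by omega))
  refine ⟨i, hi, ?_⟩
  have e1 := T_sub (q := q) (psi u) X (V q u) (4 * i)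
  rw [T_V hq, ← T_congr X (psi_congr h2), hX, add_sub_cancel_left, ← hX] at e1
  have e2 := T_psi (q := q) c X i
  have e3 := V_step hq u i
  obtain ⟨r1, r2⟩ := hR (i + 1) hi
  have v1 := V_ge n (sh (i + 1) u)
  have v2 := V_le n (sh (i + 1) u)
  have e4 : q ^ (4 * (i + 1)) * e = KK q * (dg (c i) - dg (u i)) +
      (T q (psi c) X (4 * (i + 1)) - V q (sh (i + 1) u)) := by
    rw [e2]; linear_combination -q ^ 4 * e1 - e3
  have := n.ar; have := n.bM; have := n.aK; have := n.bK
  rw [e4]
  revert h1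
  cases c i <;> cases u i <;> intro h1
  · exact absurd rfl h1
  · rw [abs_of_neg] <;> simp only [dg_true, dg_false]
    · constructor <;> linarith
    · linarith
  · rw [abs_of_pos] <;> simp only [dg_true, dg_false]
    · constructor <;> linarith
    · linarith
  · exact absurd rfl h1

theorem abs_pow_le (hq : 1 < q) (h : ℝ) {a b : ℕ} (hab : a ≤ b) : |q ^ a * h| ≤ |q ^ b * h| := by
  rw [abs_mul, abs_mul, abs_of_pos (by positivity : 0 < q ^ a),
    abs_of_pos (by positivity : 0 < q ^ b)]
  exact mul_le_mul_of_nonneg_right (pow_le_pow_right₀ hq.le hab) (abs_nonneg _)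

theorem mag_incompat (n : Nm q) {h : ℝ} {a b : ℕ} (hab : a ≠ b)
    (ha : 1.539 ≤ |q ^ a * h| ∧ |q ^ a * h| ≤ 1.918)
    (hb : 1.539 ≤ |q ^ b * h| ∧ |q ^ b * h| ≤ 1.918) : False := by
  wlog hlt : a < b generalizing a b
  · exact this hab.symm hb ha (by omega)
  have h1 := abs_pow_le n.one_lt h (show a + 1 ≤ b from hlt)
  rw [pow_succ', mul_assoc, abs_mul q, abs_of_pos (by linarith only [n.a1] : 0 < q)] at h1
  nlinarith only [n.a1, ha.1, hb.2, h1]

theorem mag_V (n : Nm q) {u b : ℕ → Bool} {e : ℝ} {k : ℕ} (hX : V q b = V q u + e)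
    (hne : ∃ i < k, b i ≠ u i) :
    ∃ i < k, 1.539 ≤ |q ^ (4 * (i + 1)) * e| ∧ |q ^ (4 * (i + 1)) * e| ≤ 1.918 :=
  mag n hX (fun i _ => by rw [T_V n.one_lt]; exact V_mem n _) hne

theorem mid_cases (hJ : Jf q) {x : ℝ} (hx : x ∈ Mid q) : Two q (Mid q) x ∨
    ∃ I ∈ nearI, ((I.1 : ℝ) ≤ 2 ^ 80 * x ∧ 2 ^ 80 * x ≤ (I.2 : ℝ)) ∨
      ((I.1 : ℝ) ≤ 2 ^ 80 * (MM q - x) ∧ 2 ^ 80 * (MM q - x) ≤ (I.2 : ℝ)) := by
  rcases end_or hJ x with h | h
  · rcases two_or_near hJ (start_of_mid hJ hx) h with h | ⟨I, h1, h2⟩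
    · exact Or.inl h
    · exact Or.inr ⟨I, h1, Or.inl h2⟩
  · rcases two_or_near hJ (start_of_mid hJ (Mid_mirror hJ.nm hx)) h with h | ⟨I, h1, h2⟩
    · exact Or.inl (h.mirror hJ.nm)
    · exact Or.inr ⟨I, h1, Or.inr h2⟩

theorem exit_case (hJ : Jf q) {u u' b c : ℕ → Bool} (hu : NoTriple u) {X h : ℝ} (h0 : h ≠ 0)
    {l l' k : ℕ} (hl : l % 4 ≠ l' % 4) (hX : X = V q u + q ^ l * h)
    (hb : V q b = V q u' + q ^ l' * h) (hR : ∀ i ≤ k, T q (psi c) X (4 * i) ∈ Rr q)
    (hM : T q (psi c) X (4 * k) ∈ Mid q) : Two q (Mid q) (T q (psi c) X (4 * k)) := by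
  have n := hJ.nm
  have hq := n.one_lt
  by_cases hag : ∃ i < k, c i ≠ u i
  · exfalso
    obtain ⟨i, -, hi⟩ := mag n hX hR hag
    have hne : b ≠ u' := by
      rintro rfl
      have : q ^ l' * h = 0 := by linarith only [hb]
      exact h0 ((mul_eq_zero.1 this).resolve_left (by positivity))
    obtain ⟨j, hj, -⟩ := first_diff hne
    obtain ⟨i', -, hi'⟩ := mag_V n hb ⟨j, Nat.lt_succ_self j, hj⟩
    rw [← mul_assoc, ← pow_add] at hi hi'
    exact mag_incompat n (by omega) hi hi'
  push Not at hag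
  have e1 := T_sub (q := q) (psi u) X (V q u) (4 * k)
  rw [T_V hq, ← T_congr X (psi_congr hag), hX, add_sub_cancel_left, ← hX] at e1
  generalize T q (psi c) X (4 * k) = x at *
  let b1 := cat l' (fun _ => false) b
  let u1 := cat l' (fun _ => false) u'
  have e2 : q ^ (4 * l') * (V q b1 - V q u1) = q ^ l' * h := by
    rw [V_agree hq (fun i hi => by simp [b1, u1, cat, hi]), sh_cat, sh_cat]; linarith only [hb]
  have e3 : q ^ (3 * l') * (V q b1 - V q u1) = h := by
    refine mul_left_cancel₀ (by positivity : q ^ l' ≠ 0) ?_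
    rw [← e2]; ring
  obtain ⟨m, s, hs, hms⟩ : ∃ m s, s ∈ [1, 2, 3] ∧ 4 * k + l + 3 * l' = 4 * m + s :=
    ⟨(4 * k + l + 3 * l') / 4, (4 * k + l + 3 * l') % 4, by simp; omega, by omega⟩
  have hs1 : 1 ≤ s := by simp at hs; omega
  have e4 : x - V q (sh k u) = q ^ (4 * m + s) * (V q b1 - V q u1) := by
    rw [e1, ← e3, ← hms]; ring
  have hagr : ∀ i < m + 1, b1 i = u1 i := by
    by_contra hcon
    push Not at hcon
    obtain ⟨i, hi, h1, -⟩ := mag_V n (b := b1) (u := u1) (e := V q b1 - V q u1) (by ring) hcon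
    have h2 := abs_pow_le hq (V q b1 - V q u1) (show 4 * i + 1 ≤ 4 * m + s by omega)
    rw [← e4] at h2
    rw [show q ^ (4 * (i + 1)) * (V q b1 - V q u1) = q ^ 3 * (q ^ (4 * i + 1) *
      (V q b1 - V q u1)) by ring, abs_mul, abs_of_pos (by positivity : 0 < q ^ 3)] at h1
    obtain ⟨r1, r2⟩ := Mid_sub n hM
    have v1 := V_ge n (sh k u)
    have v2 := V_le n (sh k u)
    have h3 : |x - V q (sh k u)| ≤ 0.1883 := by
      rw [abs_le]; constructor <;> linarith only [n.ar, n.bM, r1, v2, r2, v1]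
    nlinarith only [n.b3, abs_nonneg (q ^ (4 * i + 1) * (V q b1 - V q u1)), h1, h2, h3]
  let G : ℕ → ℝ := fun i => V q (sh (i + m) b1) - V q (sh (i + m) u1)
  let d : ℕ → ℤ := fun i => bz (b1 (i + m)) - bz (u1 (i + m))
  have hd0 : d 0 = 0 := by simp [d, hagr m (by omega)]
  have hd : ∀ i, d i ∈ [-1, 0, 1] := by
    intro i; simp only [d]; cases b1 (i + m) <;> cases u1 (i + m) <;> simp [bz]
  have hG : ∀ i, q ^ 4 * G i = KK q * d i + G (i + 1) := by
    intro i
    simp only [G, d]
    push_cast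
    rw [bz_cast, bz_cast, show i + 1 + m = i + m + 1 by ring]
    linear_combination V_step hq b1 (i + m) - V_step hq u1 (i + m)
  have hGb : ∀ i, |G i| ≤ MM q - 2 * rr q := by
    intro i
    rw [abs_le]
    constructor <;> simp only [G] <;>
      linarith only [V_ge n (sh (i + m) b1), V_le n (sh (i + m) b1), V_ge n (sh (i + m) u1), V_le n (sh (i + m) u1)]
  have e5 : x = V q (sh k u) + q ^ s * G 0 := by
    simp only [G, zero_add]
    rw [← V_agree hq (fun i hi => hagr i (by omega))]
    linear_combination e4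
  rcases mid_cases hJ hM with h2 | ⟨I, hI, ⟨h1, h2⟩ | ⟨h1, h2⟩⟩
  · exact h2
  · rw [e5] at h1 h2
    exact (ke_final hJ hs (hu.shift k) hd0 hd hG hGb hI h1 h2).elim
  · have e6 : MM q - x = V q (ng (sh k u)) + q ^ s * (-G 0) := by
      rw [V_ng hq, e5]; ring
    rw [e6] at h1 h2
    refine (ke_final hJ hs (hu.shift k).neg (d := fun i => -d i) (by simp [hd0]) (fun i => ?_)
      (G := fun i => -G i) (fun i => ?_) (fun i => by rw [abs_neg]; exact hGb i) hI h1 h2).elim
    · have := hd i
      simp only [List.mem_cons, List.not_mem_nil, or_false] at this ⊢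
      omega
    · push_cast; linear_combination -hG i

/-- A shift of `g` or of its mirror image. -/
def rf (g : ℕ → Bool) (k : ℕ) (s : Bool) : ℕ → Bool := if s then ng (sh k g) else sh k g

theorem rf_nt (H : Hy q g) (k : ℕ) (s : Bool) : NoTriple (rf g k s) := by
  cases s
  · exact H.nt.shift k
  · exact (H.nt.shift k).neg

theorem rf_special (k : ℕ) (s : Bool) : Special g (psi (rf g k s)) := by
  refine ⟨0, 4 * k + 3, ?_⟩
  rw [sh_al]
  cases s
  · exact Or.inl rfl
  · exact Or.inr (psi_ng _)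

theorem near_two (H : Hy q g) {y : ℝ} (P : Pure q g y) {wA wB : ℕ → Bool} {nA nB kA kB : ℕ}
    {sA sB : Bool}
    (hid : q ^ nB * (V q (rf g kA sA) - T q wA 0 nA) = q ^ nA * (V q (rf g kB sB) - T q wB 0 nB))
    (RA : T q wA y nA ∈ Rr q) (RB : T q wB y nB ∈ Rr q) (pA : 0 < nA) (pB : 0 < nB)
    (h0 : wA 0 ≠ wB 0) (hl : nA % 4 ≠ nB % 4) : Two q (Mid q) y := by
  have n := H.J.nm
  have hq := n.one_lt
  have pp : q ^ nA ≠ 0 := by positivity
  obtain ⟨h, hA⟩ : ∃ h, T q wA y nA = V q (rf g kA sA) + q ^ nA * h :=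
    ⟨(T q wA y nA - V q (rf g kA sA)) / q ^ nA, by field_simp; ring⟩
  have hB : T q wB y nB = V q (rf g kB sB) + q ^ nB * h := by
    refine mul_left_cancel₀ pp ?_
    linear_combination q ^ nA * T_sub (q := q) wB y 0 nB - q ^ nB * T_sub (q := q) wA y 0 nA +
      q ^ nB * hA + hid
  have hh : h ≠ 0 := by
    rintro rfl
    rw [mul_zero, add_zero] at hA
    exact (P.down hq wA nA).2 _ hA.symm (rf_special kA sA)
  rcases persist n RA with ⟨a, ha⟩ | ⟨c, k, c1, c2⟩ <;>
    rcases persist n RB with ⟨b, hb⟩ | ⟨c', k', c1', c2'⟩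
  · exfalso
    have key : ∀ {a u : ℕ → Bool} {l : ℕ}, V q a = V q u + q ^ l * h → ∃ i,
        1.539 ≤ |q ^ (4 * (i + 1) + l) * h| ∧ |q ^ (4 * (i + 1) + l) * h| ≤ 1.918 := by
      intro a u l e
      have hne : a ≠ u := by
        rintro rfl
        have : q ^ l * h = 0 := by linarith only [e]
        exact hh ((mul_eq_zero.1 this).resolve_left (by positivity))
      obtain ⟨j, hj, -⟩ := first_diff hne
      obtain ⟨i, -, hi⟩ := mag_V n e ⟨j, Nat.lt_succ_self j, hj⟩
      exact ⟨i, by rwa [← mul_assoc, ← pow_add] at hi⟩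
    obtain ⟨i, hi⟩ := key (ha.trans hA)
    obtain ⟨j, hj⟩ := key (hb.trans hB)
    exact mag_incompat n (by omega) hi hj
  · exact ((exit_case H.J (rf_nt H kB sB) hh hl.symm hB (ha.trans hA) c1' c2').pull _ _).pull _ _
  · exact ((exit_case H.J (rf_nt H kA sA) hh hl hA (hb.trans hB) c1 c2).pull _ _).pull _ _
  · refine ⟨cat nA wA (psi c), cat nB wB (psi c'), 4 * k + nA, 4 * k' + nB, 0, by omega, by omega,
      by rwa [cat_lt _ _ pA, cat_lt _ _ pB], by rwa [T_cat], by rwa [T_cat]⟩

theorem V_rf (H : Hy q g) : V q (rf g 0 false) = q ^ 3 - AA q ∧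
    V q (rf g 1 false) = q ^ 4 * (q ^ 3 - AA q) - AA q - KK q ∧
    V q (rf g 0 true) = MM q - (q ^ 3 - AA q) ∧
    V q (rf g 1 true) = MM q - (q ^ 4 * (q ^ 3 - AA q) - AA q - KK q) ∧
    V q (rf g 2 true) = MM q - (q ^ 4 * (q ^ 4 * (q ^ 3 - AA q) - AA q - KK q) - AA q - KK q) ∧
    V q (rf g 3 true) = MM q - (q ^ 4 * (q ^ 4 * (q ^ 4 * (q ^ 3 - AA q) - AA q - KK q)
      - AA q - KK q) - AA q - KK q) := by
  have hq := H.J.nm.one_lt
  have e0 := cube_eq hq H.F
  have e1 := V_step hq g 0
  have e2 := V_step hq g 1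
  have e3 := V_step hq g 2
  rw [H.st _ (by omega), dg_true] at e1 e2 e3
  simp only [rf, if_true, V_ng hq, Bool.false_eq_true, if_false, sh_zero, zero_add,
    Nat.reduceAdd] at *
  have a0 : V q g = q ^ 3 - AA q := by linarith only [e0]
  have a1 : V q (sh 1 g) = q ^ 4 * (q ^ 3 - AA q) - AA q - KK q := by rw [← a0]; linarith only [e1]
  have a2 : V q (sh 2 g) = q ^ 4 * V q (sh 1 g) - AA q - KK q := by linarith only [e2]
  have a3 : V q (sh 3 g) = q ^ 4 * V q (sh 2 g) - AA q - KK q := by linarith only [e3]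
  rw [a3, a2, a1, a0]
  exact ⟨rfl, rfl, rfl, rfl, rfl, rfl⟩

theorem near_all (H : Hy q g) {y : ℝ} (P : Pure q g y) {I : ℕ × ℕ} (hI : I ∈ nearI)
    (h1 : (I.1 : ℝ) ≤ 2 ^ 80 * y) (h2 : 2 ^ 80 * y ≤ (I.2 : ℝ)) : Two q (Mid q) y := by
  obtain ⟨v0, v1, w0, w1, w2, w3⟩ := V_rf H
  have hq1 : q - 1 ≠ 0 := by linarith only [H.J.nm.a1]
  have key : ∀ (wA wB nA nB kA kB : ℕ) (sA sB : Bool),
      (into wA nA I.1 I.2 rlo rhi && into wB nB I.1 I.2 rlo rhi && decide (0 < nA) &&
        decide (0 < nB) && decide (wd wA 0 ≠ wd wB 0) && decide (nA % 4 ≠ nB % 4)) = true →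
      q ^ nB * (V q (rf g kA sA) - T q (wd wA) 0 nA) =
        q ^ nA * (V q (rf g kB sB) - T q (wd wB) 0 nB) → Two q (Mid q) y := by
    intro wA wB nA nB kA kB sA sB hc hid
    simp only [Bool.and_eq_true, decide_eq_true_eq] at hc
    obtain ⟨⟨⟨⟨⟨c1, c2⟩, c3⟩, c4⟩, c5⟩, c6⟩ := hc
    obtain ⟨a1, a2⟩ := into_sound H.J (by decide) c1 h1 h2
    obtain ⟨b1, b2⟩ := into_sound H.J (by decide) c2 h1 h2
    exact near_two H P hid (Rr_of_t H.J a1 a2) (Rr_of_t H.J b1 b2) c3 c4 c5 c6
  simp only [nearI, List.mem_cons, List.not_mem_nil, or_false] at hI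
  rcases hI with rfl | rfl | rfl | rfl | rfl | rfl | rfl | rfl | rfl
  · refine key 154006 1 18 16 0 3 true true (by decide +kernel) ?_
    rw [w0, w3]
    simp only [T, dg_wd, Nat.reduceShiftRight, Nat.reduceMod, Nat.cast_one, Nat.cast_zero]
    simp only [MM, AA, KK]; field_simp; ring
  · refine key 80278 16385 17 16 0 3 true true (by decide +kernel) ?_
    rw [w0, w3]
    simp only [T, dg_wd, Nat.reduceShiftRight, Nat.reduceMod, Nat.cast_one, Nat.cast_zero]
    simp only [MM, AA, KK]; field_simp; ring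
  · refine key 9622 1 14 12 0 2 true true (by decide +kernel) ?_
    rw [w0, w2]
    simp only [T, dg_wd, Nat.reduceShiftRight, Nat.reduceMod, Nat.cast_one, Nat.cast_zero]
    simp only [MM, AA, KK]; field_simp; ring
  · refine key 5014 1025 13 12 0 2 true true (by decide +kernel) ?_
    rw [w0, w2]
    simp only [T, dg_wd, Nat.reduceShiftRight, Nat.reduceMod, Nat.cast_one, Nat.cast_zero]
    simp only [MM, AA, KK]; field_simp; ring
  · refine key 598 1 10 8 0 1 true true (by decide +kernel) ?_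
    rw [w0, w1]
    simp only [T, dg_wd, Nat.reduceShiftRight, Nat.reduceMod, Nat.cast_one, Nat.cast_zero]
    simp only [MM, AA, KK]; field_simp; ring
  · refine key 86 257 8 10 1 0 false false (by decide +kernel) ?_
    rw [v1, v0]
    simp only [T, dg_wd, Nat.reduceShiftRight, Nat.reduceMod, Nat.cast_one, Nat.cast_zero]
    simp only [AA, KK]; field_simp; ring
  · refine key 342 1281 10 12 0 2 true true (by decide +kernel) ?_
    rw [w0, w2]
    simp only [T, dg_wd, Nat.reduceShiftRight, Nat.reduceMod, Nat.cast_one, Nat.cast_zero]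
    simp only [MM, AA, KK]; field_simp; ring
  · refine key 310 65 9 8 0 1 true true (by decide +kernel) ?_
    rw [w0, w1]
    simp only [T, dg_wd, Nat.reduceShiftRight, Nat.reduceMod, Nat.cast_one, Nat.cast_zero]
    simp only [MM, AA, KK]; field_simp; ring
  · refine key 78 1 7 4 0 0 true true (by decide +kernel) ?_
    rw [w0]
    simp only [T, dg_wd, Nat.reduceShiftRight, Nat.reduceMod, Nat.cast_one, Nat.cast_zero]
    simp only [MM, AA]; field_simp; ring

theorem not_pure_mid (H : Hy q g) {y : ℝ} (hy : y ∈ Mid q) : ¬ Pure q g y := by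
  have n := H.J.nm
  have hq := n.one_lt
  intro P
  refine uncount hq (G := {y | y ∈ Mid q ∧ Pure q g y})
    (fun y hy => Rr_sub n (Mid_sub n hy.1)) ?_ ⟨hy, P⟩ P.1
  rintro y ⟨hy, P⟩
  have : Two q (Mid q) y := by
    rcases mid_cases H.J hy with h | ⟨I, hI, ⟨h1, h2⟩ | ⟨h1, h2⟩⟩
    · exact h
    · exact near_all H P hI h1 h2
    · exact (near_all H (P.mirror hq) hI h1 h2).mirror n
  obtain ⟨w, w', m, m', i, a1, a2, a3, a4, a5⟩ := this
  exact ⟨w, w', m, m', i, a1, a2, a3, ⟨a4, P.down hq _ _⟩, ⟨a5, P.down hq _ _⟩⟩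

end Pool.Agent.MP_b1d139_an

/-! A pure point has finitely many expansions when the letter sequence is generic. -/

namespace Pool.Agent.MP_b1d139_an

def Gen (g : ℕ → Bool) : Prop :=
  ∀ a a' b b' : ℕ, a' + 2 ≤ a → a ≠ b → a ≠ b' → a' ≠ b → a' ≠ b' →
    ∃ N, g (N + a) = true ∧ g (N + a') = true ∧ g (N + b) = false ∧ g (N + b') = false

variable {q : ℝ} {g : ℕ → Bool}

theorem T_zeros {w : ℕ → Bool} (x : ℝ) {n : ℕ} (h : ∀ i < n, w i = false) :
    T q w x n = q ^ n * x := by
  induction n with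
  | zero => simp [T]
  | succ n ih => rw [T, ih (fun i hi => h i (by omega)), h n (by omega)]; simp; ring

theorem digit_ok (H : Hy q g) {b : ℕ → ℤ} (hb : ∀ i, b i ∈ [-1, 0, 1, 2]) {z : ℕ → ℝ}
    (hz : ∀ i, q ^ 4 * z i = AA q + KK q * b i + z (i + 1))
    (hz1 : ∀ i, 3 * rr q - MM q ≤ z i) (hz2 : ∀ i, z i ≤ 2 * MM q - 3 * rr q)
    (P : Pure q g (z 0)) : b 0 = 0 ∨ b 0 = 1 := by
  have n := H.J.nm
  have hq := n.one_lt
  have h0 := hb 0
  simp only [List.mem_cons, List.not_mem_nil, or_false] at h0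
  rcases h0 with h0 | h0 | h0 | h0
  · exfalso
    obtain ⟨w, m, hw⟩ := k2_final H.J (b := fun i => 1 - b i) (z := fun i => MM q - z i)
      (by simp [h0]) (fun i => by
        have := hb i
        simp only [List.mem_cons, List.not_mem_nil, or_false] at this ⊢
        omega)
      (fun i => by push_cast; linear_combination n.eM - hz i)
      (fun i => by linarith [hz2 i, n.ar, n.bM]) (fun i => by linarith only [hz1 i, n.ar, n.bM])
    exact not_pure_mid H hw ((P.mirror hq).down hq _ _)
  · exact Or.inl h0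
  · exact Or.inr h0
  · exfalso
    obtain ⟨w, m, hw⟩ := k2_final H.J h0 hb hz
      (fun i => by linarith [hz1 i, n.ar, n.bM]) (fun i => by linarith [hz2 i, n.ar, n.bM])
    exact not_pure_mid H hw (P.down hq _ _)

theorem viol (H : Hy q g) {c : ℕ → Bool} (P : Pure q g (V q c)) (hc : c 0 = false)
    (hs : V q c ∈ Sw q) : ∃ (j : ℕ) (b : ℕ → Bool), 3 ≤ j ∧ (∀ i < j, c (i + 1) = g i) ∧
      (∀ k, g k ≠ g (k + j + 1) → c (k + j + 2) = g (k + j + 1) ∧ b k = g k) ∧
      Pure q g (V q b) ∧ q ^ (4 * j + 7) * (q * V q c - 1) = 1 + V q b ∧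
      ∀ k, g k = g (k + j + 1) → b k = c (k + j + 2) := by
  have n := H.J.nm
  have hq := n.one_lt
  have e0 := viol_eq hq H.F hc
  have hne : sh 1 c ≠ g := by
    intro h
    rw [h, sub_self] at e0
    have h1 : q * V q c - 1 = 0 := (mul_eq_zero.1 e0).resolve_left (by positivity)
    refine (P.down hq (fun _ => false) 1).2 (al g) ?_ ⟨0, 0, Or.inl rfl⟩
    rw [H.F]; simp only [T, dg_false]; linarith
  obtain ⟨j, j1, j2, j3⟩ := lex_of_le n (viol_le hq H.F hc hs) hne
  have j0 : 3 ≤ j := by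
    by_contra hj; rw [H.st j (by omega)] at j2; cases j2
  let z : ℕ → ℝ := fun k =>
    V q (sh k g) + V q (sh (k + j + 1) (sh 1 c)) - V q (sh (k + j + 1) g)
  let e : ℕ → ℤ := fun k => bz (g k) + bz (c (k + j + 2)) - bz (g (k + j + 1))
  have he : ∀ k, e k ∈ [-1, 0, 1, 2] := by
    intro k; simp only [e]
    cases g k <;> cases c (k + j + 2) <;> cases g (k + j + 1) <;> simp [bz]
  have hz : ∀ k, q ^ 4 * z k = AA q + KK q * e k + z (k + 1) := by
    intro k
    simp only [z, e]
    push_cast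
    rw [bz_cast, bz_cast, bz_cast, show k + 1 + j + 1 = k + j + 1 + 1 by ring]
    have h2 := V_step hq (sh 1 c) (k + j + 1)
    rw [show sh 1 c (k + j + 1) = c (k + j + 2) from rfl] at h2
    linear_combination V_step hq g k + h2 - V_step hq g (k + j + 1)
  have hz1 : ∀ k, 3 * rr q - MM q ≤ z k := fun k => by
    simp only [z]
    linarith only [V_ge n (sh k g), V_ge n (sh (k + j + 1) (sh 1 c)), V_le n (sh (k + j + 1) g)]
  have hz2 : ∀ k, z k ≤ 2 * MM q - 3 * rr q := fun k => by
    simp only [z]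
    linarith [V_le n (sh k g), V_le n (sh (k + j + 1) (sh 1 c)), V_ge n (sh (k + j + 1) g)]
  have e1 : q ^ (4 * j + 7) * (q * V q c - 1) = 1 + z 0 := by
    have a1 := V_agree hq j3
    have a2 := V_step hq (sh 1 c) j
    have a3 := V_step hq g j
    have a4 := cube_eq hq H.F
    rw [j1, dg_true] at a2
    rw [j2, dg_false] at a3
    simp only [z, zero_add, sh_zero]
    unfold KK AA at *
    linear_combination q ^ (4 * j + 4) * e0 + q ^ 4 * a1 + a2 - a3 + a4
  have P0 : Pure q g (z 0) := by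
    have h1 := (P.down hq (fun _ => true) 1).down hq (fun i => decide (i = 4 * j + 6)) (4 * j + 7)
    rw [T, T_zeros _ (fun i hi => by simp; omega)] at h1
    simp only [T, dg_true, decide_true] at h1
    convert h1 using 1
    linear_combination -e1
  let b : ℕ → Bool := fun k => decide (e k = 1)
  have step : ∀ k, T q (psi b) (z 0) (4 * k) = z k → e k = 0 ∨ e k = 1 := by
    intro k hk
    refine digit_ok H (b := fun i => e (i + k)) (z := fun i => z (i + k)) (fun i => he _)
      (fun i => by rw [hz, show i + 1 + k = i + k + 1 by ring]) (fun i => hz1 _) (fun i => hz2 _)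
      ?_ |>.imp (by simp) (by simp)
    simpa [hk] using P0.down hq (psi b) (4 * k)
  have hT : ∀ k, T q (psi b) (z 0) (4 * k) = z k := by
    intro k
    induction k with
    | zero => rfl
    | succ k ih =>
      rw [T_psi, ih, hz]
      rcases step k ih with h | h
      · simp [b, h]
      · simp [b, h]; ring
  have hv : V q b = z 0 := val_eq_of_bdd hq fun N => ⟨4 * N, by omega, by
    rw [hT]; constructor <;> linarith only [hz1 N, hz2 N, n.ar, n.bM]⟩
  have key : ∀ x y z : Bool, x ≠ z → bz x + bz y - bz z = 0 ∨ bz x + bz y - bz z = 1 →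
      y = z ∧ decide (bz x + bz y - bz z = 1) = x := by decide
  have key' : ∀ x y z : Bool, x = z → decide (bz x + bz y - bz z = 1) = y := by decide
  exact ⟨j, b, j0, j3, fun k hk => key _ _ _ hk (step k (hT k)), by rwa [hv], by rwa [hv],
    fun k hk => key' _ _ _ hk⟩

theorem Pure.V_sh (hq : 1 < q) {c : ℕ → Bool} (P : Pure q g (V q c)) (i : ℕ) :
    Pure q g (V q (sh i c)) := by
  rw [← T_V hq]; exact P.down hq _ _

theorem Pure.V_ng (hq : 1 < q) {c : ℕ → Bool} (P : Pure q g (V q c)) :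
    Pure q g (V q (ng c)) := by
  rw [Pool.Agent.MP_b1d139_an.V_ng hq]; exact P.mirror hq

theorem Sw_ng (hq : 1 < q) {c : ℕ → Bool} (h : V q c ∈ Sw q) : V q (ng c) ∈ Sw q := by
  rw [V_ng hq]; exact Sw_mirror hq h

theorem block_of_Sw (n : Nm q) {c : ℕ → Bool} {m : ℕ} (h : val q (sh m (psi c)) ∈ Sw q) :
    ∃ i, m = 4 * i ∧ V q (sh i c) ∈ Sw q := by
  have : m % 4 = 0 := by
    by_contra h'; exact not_Sw_inner n c h' h
  obtain ⟨i, rfl⟩ : ∃ i, m = 4 * i := ⟨m / 4, by omega⟩
  exact ⟨i, rfl, by rwa [sh_psi] at h⟩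

theorem no_viol (H : Hy q g) (hG : Gen g) {c : ℕ → Bool} (P : Pure q g (V q c)) {j : ℕ}
    (hc : ∀ k, g k ≠ g (k + j + 1) → c k = g k) (m : ℕ) : val q (sh m (psi c)) ∉ Sw q := by
  have n := H.J.nm
  have hq := n.one_lt
  intro hs
  obtain ⟨i, -, hi⟩ := block_of_Sw n hs
  cases hci : c i
  · obtain ⟨j', b, -, -, h3, -⟩ := viol H (P.V_sh hq i) (by simpa [sh] using hci) hi
    obtain ⟨N, n1, n2, n3, n4⟩ := hG (j' + 2 + i) 0 (j' + 2 + i + j + 1) (j' + 1) (by omega)
      (by omega) (by omega) (by omega) (by omega)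
    simp only [← add_assoc, add_zero] at n1 n2 n3 n4
    have a1 := (h3 N (by rw [n2, n4]; simp)).1
    have a2 := hc (N + j' + 2 + i) (by rw [n1, n3]; simp)
    simp only [sh] at a1
    rw [a2, n1, n4] at a1; cases a1
  · obtain ⟨j', b, -, -, h3, -⟩ := viol H ((P.V_sh hq i).V_ng hq) (by simp [ng, sh, hci])
      (Sw_ng hq hi)
    obtain ⟨N, n1, n2, n3, n4⟩ := hG (j' + 2 + i + j + 1) 0 (j' + 2 + i) (j' + 1) (by omega)
      (by omega) (by omega) (by omega) (by omega)
    simp only [← add_assoc, add_zero] at n1 n2 n3 n4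
    have a1 := (h3 N (by rw [n2, n4]; simp)).1
    have a2 := hc (N + j' + 2 + i) (by rw [n1, n3]; simp)
    simp only [sh, ng] at a1
    rw [a2, n3, n4] at a1; cases a1

/-- The word `0 … 0 1` of length `4 * j + 7`. -/
def zw (j : ℕ) : ℕ → Bool := fun i => decide (i = 4 * j + 6)

theorem T_zw (x : ℝ) (j : ℕ) : T q (zw j) x (4 * j + 7) = q ^ (4 * j + 7) * x - 1 := by
  rw [T, T_zeros _ (fun i hi => by simp [zw]; omega)]
  simp only [zw, decide_true, dg_true]
  ring

theorem side_sub (n : Nm q) {x : ℝ} {j : ℕ} {b : ℕ → Bool}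
    (e : q ^ (4 * j + 7) * x = 1 + V q b) :
    Ex q x ⊆ cat (4 * j + 7) (zw j) '' Ex q (V q b) := by
  have hq := n.one_lt
  have v1 := V_ge n b
  have v2 := V_le n b
  have := n.ar; have := n.bM
  have x0 : 0 ≤ x := nonneg_of_mul_nonneg_right (by linarith : 0 ≤ q ^ (4 * j + 7) * x)
    (by positivity)
  have hT : T q (zw j) x (4 * j + 7) = V q b := by rw [T_zw]; linarith only [e]
  have hv : val q (cat (4 * j + 7) (zw j) (psi b)) = x := val_cat hq hT.symm
  intro d hd
  have hag : ∀ i < 4 * j + 7, d i = zw j i := by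
    by_cases hne : d = cat (4 * j + 7) (zw j) (psi b)
    · intro i hi; rw [hne, cat_lt _ _ hi]
    obtain ⟨m, m1, m2⟩ := first_diff hne
    have hm := (branch hq (by rw [hv]; exact hd) m1 m2).1
    have h : ¬ m < 4 * j + 7 := by
      intro h
      rw [← T_val hq, hv, T_zeros _ (fun i hi => by
        rw [cat_lt _ _ (by omega)]; simp [zw]; omega)] at hm
      obtain ⟨s1, s2⟩ := Sw_bd n hm
      rcases Nat.lt_or_ge m (4 * j + 6) with h' | h'
      · have h1 : q ^ m * x ≤ q ^ (4 * j + 5) * x :=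
          mul_le_mul_of_nonneg_right (pow_le_pow_right₀ hq.le (by omega)) x0
        have h2 : q ^ 2 * (q ^ (4 * j + 5) * x) = 1 + V q b := by rw [← e]; ring
        nlinarith [n.a2]
      · obtain rfl : m = 4 * j + 6 := by omega
        have h2 : q * (q ^ (4 * j + 6) * x) = 1 + V q b := by rw [← e]; ring
        nlinarith [n.b1]
    exact fun i hi => by rw [m2 i (by omega), cat_lt _ _ hi]
  exact ⟨sh (4 * j + 7) d, by
    change val q _ = _
    rw [val_sh_of_agree hq hd hag, hT], cat_sh hag⟩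

theorem side_finite (H : Hy q g) (hG : Gen g) {c : ℕ → Bool} (P : Pure q g (V q c))
    (hc : c 0 = false) (hs : V q c ∈ Sw q) : (Ex q (q * V q c - 1)).Finite := by
  have n := H.J.nm
  obtain ⟨j, b, -, -, h3, Pb, e, -⟩ := viol H P hc hs
  refine (Set.Finite.image _ ?_).subset (side_sub n e)
  exact (Set.finite_singleton (psi b)).subset fun d hd =>
    unique_of_no_branch n.one_lt hd (no_viol H hG Pb fun k hk => (h3 k hk).2)

theorem two_viol (H : Hy q g) (hG : Gen g) {c : ℕ → Bool} (P : Pure q g (V q c)) :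
    {i | c i = false ∧ V q (sh i c) ∈ Sw q}.Subsingleton := by
  have hq := H.J.nm.one_lt
  intro i hi i' hi'
  by_contra hne
  wlog hlt : i < i' generalizing i i'
  · exact this hi' hi (Ne.symm hne) (by omega)
  obtain ⟨j, b, j0, j1, j2, -⟩ := viol H (P.V_sh hq i) (by simpa [sh] using hi.1) hi.2
  obtain ⟨j', b', k0, k1, k2, -⟩ := viol H (P.V_sh hq i') (by simpa [sh] using hi'.1) hi'.2
  simp only [sh] at j1 j2 k1 k2
  have hne2 : i + j ≠ i' + j' := by
    intro h
    obtain ⟨t, rfl⟩ : ∃ t, i' = t + 1 + i := ⟨i' - i - 1, by omega⟩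
    have key : ∀ s < 3, g (t + 1 + s) = true := by
      intro s hs
      rw [← j1 _ (by omega), ← H.st s hs, ← k1 s (by omega)]
      congr 1; omega
    exact H.nt t ⟨by rw [key 0 (by omega), key 1 (by omega)],
      by rw [key 1 (by omega), key 2 (by omega)]⟩
  obtain ⟨N, n1, n2, n3, n4⟩ := hG (i' + j' + j + 1) (i + j) (i' + j') (i + j + j' + 1) (by omega)
    (by omega) (by omega) hne2 (by omega)
  simp only [← add_assoc] at n1 n2 n3 n4
  have a1 := (j2 (N + i' + j') (by rw [n1, n3]; simp)).1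
  have a2 := (k2 (N + i + j) (by rw [n2, n4]; simp)).1
  rw [n1, show N + i' + j' + j + 2 + i = N + i + j + j' + 2 + i' by ring, a2, n4] at a1
  cases a1

theorem Ex_mirror_finite (hq : 1 < q) {x : ℝ} (h : (Ex q (MM q - x)).Finite) :
    (Ex q x).Finite := by
  refine (h.preimage (f := ng) (Function.LeftInverse.injective ng_ng).injOn).subset fun c hc => ?_
  change val q (ng c) = _
  rw [val_ng hq, show val q c = x from hc]

theorem finite_V' (n : Nm q) {c : ℕ → Bool}
    (h1 : {i | c i = false ∧ V q (sh i c) ∈ Sw q}.Finite)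
    (h2 : {i | ng c i = false ∧ V q (sh i (ng c)) ∈ Sw q}.Finite)
    (h3 : ∀ i, c i = false → V q (sh i c) ∈ Sw q → (Ex q (q * V q (sh i c) - 1)).Finite)
    (h4 : ∀ i, ng c i = false → V q (sh i (ng c)) ∈ Sw q →
      (Ex q (q * V q (sh i (ng c)) - 1)).Finite) : (Ex q (V q c)).Finite := by
  have hq := n.one_lt
  refine finite_of_branch hq ?_ fun m hm => ?_
  · refine ((h1.union h2).image (fun i => 4 * i)).subset fun m hm => ?_
    obtain ⟨i, rfl, hi⟩ := block_of_Sw n hm
    refine ⟨i, ?_, rfl⟩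
    cases hci : c i
    · exact Or.inl ⟨hci, hi⟩
    · exact Or.inr ⟨by simp [ng, hci], Sw_ng hq hi⟩
  · obtain ⟨i, rfl, hi⟩ := block_of_Sw n hm
    have e : psi c (4 * i) = c i := by simp [psi]
    rw [e, sh_psi]
    cases hci : c i
    · exact h3 i hci hi
    · have := h4 i (by simp [ng, hci]) (Sw_ng hq hi)
      refine Ex_mirror_finite hq ?_
      convert this using 2
      rw [sh_ng, V_ng hq]
      simp only [Bool.not_true, dg_false, V]
      linear_combination -MM_eq hq

theorem finite_V (H : Hy q g) (hG : Gen g) {c : ℕ → Bool} (P : Pure q g (V q c)) :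
    (Ex q (V q c)).Finite := by
  have n := H.J.nm
  have hq := n.one_lt
  exact finite_V' n (two_viol H hG P).finite (two_viol H hG (P.V_ng hq)).finite
    (fun i h1 h2 => side_finite H hG (P.V_sh hq i) (by simpa [sh] using h1) h2)
    (fun i h1 h2 => side_finite H hG ((P.V_ng hq).V_sh hq i) (by simpa [sh] using h1) h2)

theorem finite_of_pure (H : Hy q g) (hG : ∀ c, Pure q g (V q c) → (Ex q (V q c)).Finite)
    {x : ℝ} (P : Pure q g x) :
    (Ex q x).Finite := by
  classical
  have n := H.J.nm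
  have hq := n.one_lt
  rcases (Ex q x).eq_empty_or_nonempty with h | ⟨e, he⟩
  · rw [h]; exact Set.finite_empty
  have he : val q e = x := he
  by_cases hex : ∃ m, val q (sh m e) ∈ Sw q
  · have h1 := Nat.find_spec hex
    have h2 := fun m => Nat.find_min hex (m := m)
    generalize Nat.find hex = m at h1 h2
    have P1 : Pure q g (val q (sh m e)) := by
      rw [← T_val hq, he]; exact P.down hq _ _
    have hf : (Ex q (val q (sh m e))).Finite := by
      rcases persist n (Sw_sub n h1) with ⟨c, hc⟩ | ⟨c, k, -, hk⟩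
      · rw [← hc] at P1 ⊢; exact hG c P1
      · exact absurd (P1.down hq _ _) (not_pure_mid H hk)
    refine (hf.image (cat m e)).subset fun d hd => ?_
    have hd : val q d = val q e := by rw [he]; exact hd
    have hag : ∀ i < m, d i = e i := by
      by_cases hne : d = e
      · intro i _; rw [hne]
      · obtain ⟨k, k1, k2⟩ := first_diff hne
        have : ¬ k < m := fun hk => h2 k hk (branch hq hd k1 k2).1
        exact fun i hi => k2 i (by omega)
    exact ⟨sh m d, by
      change val q (sh m d) = _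
      rw [val_sh_of_agree hq hd hag, T_val hq], cat_sh hag⟩
  · push Not at hex
    exact (Set.finite_singleton e).subset fun d hd =>
      unique_of_no_branch hq (by rw [he]; exact hd) hex

end Pool.Agent.MP_b1d139_an

/-! In a transcendental base a point has finitely many special expansions. -/

namespace Pool.Agent.MP_b1d139_an

open Polynomial

variable {q : ℝ} {g : ℕ → Bool}

theorem block_viol (n : Nm q) (hF : val q (al g) = 1) (st : ∀ i < 3, g i = true) {c : ℕ → Bool}
    (hs : V q c ∈ Sw q) : ∀ i < 3, c (i + 1) = !c 0 := by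
  have hq := n.one_lt
  intro i hi
  cases hc : c 0
  · exact start_of_le n st (viol_le hq hF hc hs) i hi
  · have := start_of_le n st (viol_le (c := ng c) hq hF (by simp [ng, hc]) (Sw_ng hq hs)) i hi
    simpa [sh, ng] using this

theorem al_no_branch (H : Hy q g) (m : ℕ) : val q (sh m (al g)) ∉ Sw q := by
  have n := H.J.nm
  rcases Nat.lt_or_ge m 3 with h | h
  · exact al_head n H.F h
  · obtain ⟨m, rfl⟩ : ∃ m', m = m' + 3 := ⟨m - 3, by omega⟩
    intro hs
    rw [← sh_sh, al, sh_cat] at hs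
    obtain ⟨i, -, hi⟩ := block_of_Sw n hs
    have := block_viol n H.F H.st hi
    refine H.nt.shift i 0 ⟨?_, ?_⟩
    · rw [this 0 (by omega), this 1 (by omega)]
    · rw [this 1 (by omega), this 2 (by omega)]

theorem special_isolated (H : Hy q g) {s : ℕ → Bool} (hs : Special g s) :
    ∃ L, ∀ d, val q d = val q s → (∀ i < L, d i = s i) → d = s := by
  have hq := H.J.nm.one_lt
  obtain ⟨L, k, h⟩ := hs
  refine ⟨L, fun d hd hag => ?_⟩
  have : sh L d = sh L s := by
    refine unique_of_no_branch hq (by rw [val_sh_of_agree hq hd hag, T_val hq]) fun m hm => ?_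
    rcases h with h | h
    · rw [h, sh_sh] at hm; exact al_no_branch H _ hm
    · rw [h, sh_ng, sh_sh, val_ng hq] at hm
      have := Sw_mirror hq hm
      rw [sub_sub_cancel] at this
      exact al_no_branch H _ this
  rw [← cat_sh hag, this, cat_sh fun _ _ => rfl]

noncomputable def PW (c : ℕ → Bool) : ℕ → ℤ[X]
  | 0 => 0
  | n + 1 => X * PW c n + C (bz (c n))

theorem T_PW (c : ℕ → Bool) (x : ℝ) (n : ℕ) : T q c x n = q ^ n * x - aeval q (PW c n) := by
  induction n with
  | zero => simp [T, PW]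
  | succ n ih => simp [T, PW, ih, bz_cast]; ring

theorem coeff_PW (c : ℕ → Bool) (n t : ℕ) :
    (PW c n).coeff t = if t < n then bz (c (n - 1 - t)) else 0 := by
  induction n generalizing t with
  | zero => simp [PW]
  | succ n ih =>
    cases t with
    | zero => simp only [PW, eq_intCast, coeff_add, mul_coeff_zero, coeff_X_zero, zero_mul, intCast_coeff_zero, Int.cast_eq, zero_add, lt_add_iff_pos_left, Order.lt_add_one_iff, zero_le, ↓ reduceIte, add_tsub_cancel_right, tsub_zero]
    | succ t =>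
      simp only [PW, coeff_add, coeff_X_mul, coeff_C_succ, ih, add_zero, Nat.add_lt_add_iff_right]
      split_ifs with h
      · congr 2; omega
      · rfl

theorem bz_nonneg (b : Bool) : 0 ≤ bz b := by cases b <;> simp [bz]

theorem poly_id (hq : 1 < q) (ht : Transcendental ℤ q) {a c d : ℕ → Bool} (hF : val q a = 1)
    {L k k' : ℕ} (hc : sh L c = sh k a) (hd : sh L d = sh k' a) (h : val q d = val q c) :
    PW c L + X ^ k - PW a k = PW d L + X ^ k' - PW a k' := by
  apply transcendental_iff_injective.1 ht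
  have e1 := T_val hq c L
  have e2 := T_val hq d L
  rw [hc, ← T_val hq, hF, T_PW, T_PW] at e1
  rw [hd, ← T_val hq, hF, T_PW, T_PW, h] at e2
  simp only [map_sub, map_add, map_pow, aeval_X]
  linarith

theorem sh_more {a c : ℕ → Bool} {L k : ℕ} (h : sh L c = sh k a) (t : ℕ) :
    sh (t + L) c = sh (t + k) a := by rw [← sh_sh, h, sh_sh]

theorem finite_tail (hq : 1 < q) (ht : Transcendental ℤ q) {a : ℕ → Bool} (hF : val q a = 1)
    (x : ℝ) : {c | val q c = x ∧ ∃ L k, sh L c = sh k a}.Finite := by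
  classical
  rcases {c | val q c = x ∧ ∃ L k, sh L c = sh k a}.eq_empty_or_nonempty with h | ⟨c, hc, L, k, h⟩
  · rw [h]; exact Set.finite_empty
  have : ∀ d : ℕ → Bool, ∃ L k : ℕ, (∃ L k, sh L d = sh k a) → sh L d = sh k a := by
    intro d
    by_cases h : ∃ L k, sh L d = sh k a
    · obtain ⟨L, k, h⟩ := h; exact ⟨L, k, fun _ => h⟩
    · exact ⟨0, 0, fun h' => absurd h' h⟩
  choose fL fk hf using this
  refine Set.Finite.of_injOn (f := fun d => (fL d : ℤ) - fk d)
    (t := {(L : ℤ) - k} ∪ Set.Icc 1 (L : ℤ)) ?_ ?_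
    ((Set.finite_singleton _).union (Set.finite_Icc _ _))
  · rintro d ⟨hd, hd'⟩
    have h' := hf d hd'
    simp only [Set.mem_union, Set.mem_singleton_iff, Set.mem_Icc]
    generalize fL d = L' at h' ⊢
    generalize fk d = k' at h' ⊢
    have e := poly_id hq ht hF (sh_more h L') (by rw [add_comm]; exact sh_more h' L)
      (hd.trans hc.symm)
    by_cases hk : L + k' = L' + k
    · left; omega
    right
    have e' := congrArg (fun p => p.coeff (L + k')) e
    simp only [coeff_sub, coeff_add, coeff_X_pow, coeff_PW, if_neg hk, lt_irrefl, if_true,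
      if_false] at e'
    by_contra hcon
    rcases Nat.lt_or_ge (L + k') L' with h1 | h1
    · rw [if_pos (by omega), if_pos (by omega), if_pos (by omega)] at e'
      have e2 := congrFun h (L' - 1 - (L + k'))
      simp only [sh] at e2
      rw [show L' + L - 1 - (L + k') = L' - 1 - (L + k') + L by omega, e2,
        show L' + k - 1 - (L + k') = L' - 1 - (L + k') + k by omega] at e'
      have := bz_nonneg (d (L' - 1 - (L + k') + L))
      omega
    · rw [if_neg (by omega), if_neg (show ¬ L + k' < L' + L by omega)] at e'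
      split_ifs at e'
      · have := bz_nonneg (a (L' + k - 1 - (L + k'))); omega
      · omega
  · rintro d ⟨hd, hd'⟩ d' ⟨he, he'⟩ hs
    have h1 := sh_more (hf d hd') (fL d')
    have h2 := sh_more (hf d' he') (fL d)
    simp only at hs
    rw [add_comm (fL d), show fL d + fk d' = fL d' + fk d by omega] at h2
    have e := poly_id hq ht hF h1 h2 (he.trans hd.symm)
    have e' : PW d (fL d' + fL d) = PW d' (fL d' + fL d) := by linear_combination e
    have hag : ∀ i < fL d' + fL d, d i = d' i := by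
      intro i hi
      have := congrArg (fun p => p.coeff (fL d' + fL d - 1 - i)) e'
      simp only [coeff_PW] at this
      rw [if_pos (by omega), if_pos (by omega),
        show fL d' + fL d - 1 - (fL d' + fL d - 1 - i) = i by omega] at this
      revert this; cases d i <;> cases d' i <;> simp [bz]
    rw [← cat_sh hag, h1, ← h2, cat_sh fun _ _ => rfl]

theorem finite_special (hq : 1 < q) (ht : Transcendental ℤ q) (hF : val q (al g) = 1) (x : ℝ) :
    {c | val q c = x ∧ Special g c}.Finite := by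
  refine ((finite_tail hq ht hF x).union ((finite_tail hq ht hF (MM q - x)).preimage (f := ng)
    (Function.LeftInverse.injective ng_ng).injOn)).subset ?_
  rintro c ⟨hc, L, k, h | h⟩
  · exact Or.inl ⟨hc, L, k, h⟩
  · exact Or.inr ⟨by rw [val_ng hq, hc], L, k, by rw [sh_ng, h, ng_ng]⟩

/-- In such a base every point has finitely many or uncountably many expansions. -/
theorem finite_of_countable (H : Hy q g) (hG : ∀ c, Pure q g (V q c) → (Ex q (V q c)).Finite)
    (ht : Transcendental ℤ q) {x : ℝ}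
    (hx : (Ex q x).Countable) : (Ex q x).Finite := by
  classical
  have hq := H.J.nm.one_lt
  have hS := finite_special hq ht H.F x
  have : ∀ s : ℕ → Bool, ∃ L, Special g s →
      ∀ d, val q d = val q s → (∀ i < L, d i = s i) → d = s := by
    intro s
    by_cases h : Special g s
    · obtain ⟨L, hL⟩ := special_isolated H h; exact ⟨L, fun _ => hL⟩
    · exact ⟨0, fun h' => absurd h' h⟩
  choose fL hf using this
  obtain ⟨L, hL⟩ := (hS.image fL).bddAbove
  let ext : (Fin L → Bool) → ℕ → Bool := fun w i => if h : i < L then w ⟨i, h⟩ else false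
  have key : ∀ w, (cat L (ext w) '' Ex q (T q (ext w) x L)).Finite := by
    intro w
    by_cases hs : ∃ c, val q c = T q (ext w) x L ∧ Special g c
    · obtain ⟨c, h1, h2⟩ := hs
      have s1 := val_cat hq h1
      have s2 : Special g (cat L (ext w) c) := Special.of_sh L (by rwa [sh_cat])
      have s3 : fL (cat L (ext w) c) ≤ L := hL ⟨_, ⟨s1, s2⟩, rfl⟩
      refine (Set.finite_singleton (cat L (ext w) c)).subset ?_
      rintro _ ⟨d, hd, rfl⟩
      exact hf _ s2 _ (by rw [s1]; exact val_cat hq hd) fun i hi => by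
        rw [cat_lt _ _ (by omega), cat_lt _ _ (by omega)]
    · push Not at hs
      exact (finite_of_pure H hG ⟨(hx.preimage (cat_inj L _)).mono fun c hc => val_cat hq hc,
        hs⟩).image _
  refine (Set.finite_iUnion key).subset fun d hd => ?_
  have hag : ∀ i < L, d i = ext (fun j => d j) i := fun i hi => by simp [ext, hi]
  exact Set.mem_iUnion.2 ⟨fun j => d j, sh L d, val_sh_of_agree hq hd hag, cat_sh hag⟩

end Pool.Agent.MP_b1d139_an

/-! Existence of the bases, and their approximation by bases with periodic expansions of 1. -/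

namespace Pool.Agent.MP_b1d139_an

variable {q q' : ℝ}

theorem expansions_eq (hq : 1 < q) (x : ℝ) : Expansions q x = Ex q x := by
  ext c
  exact ⟨fun h => HasSum.tsum_eq h, fun h => by
    have := (summable_val hq c).hasSum
    rw [← show val q c = x from h]; exact this⟩

theorem val_anti (hq : 1 < q) (h : q ≤ q') (c : ℕ → Bool) : val q' c ≤ val q c :=
  (summable_val (by linarith) c).tsum_le_tsum (fun i =>
    div_le_div_of_nonneg_left (dg_nonneg _) (by positivity)
      (pow_le_pow_left₀ (by linarith) h _)) (summable_val hq c)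

theorem val_lip_le (n : Nm q) (n' : Nm q') (h : q ≤ q') (c : ℕ → Bool) :
    val q c - val q' c ≤ 2 * (q' - q) := by
  have h1 := val_anti n.one_lt h (ng c)
  rw [val_ng n.one_lt, val_ng n'.one_lt] at h1
  have e1 := MM_eq n.one_lt
  have e2 := MM_eq n'.one_lt
  have e3 : MM q - MM q' = MM q * MM q' * (q' - q) := by
    linear_combination MM q' * e1 - MM q * e2
  have : MM q * MM q' ≤ 2 := by nlinarith only [n.aM, n.bM, n'.bM]
  nlinarith only [h, h1, e3, this]

theorem val_lip (n : Nm q) (n' : Nm q') (c : ℕ → Bool) :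
    |val q c - val q' c| ≤ 2 * |q - q'| := by
  rcases le_total q q' with h | h
  · rw [abs_of_nonneg (by linarith [val_anti n.one_lt h c]), abs_of_nonpos (by linarith)]
    linarith [val_lip_le n n' h c]
  · rw [abs_of_nonpos (by linarith [val_anti n'.one_lt h c]), abs_of_nonneg (by linarith)]
    linarith [val_lip_le n' n h c]

theorem val_lip_ge (n : Nm q) (n' : Nm q') (h : q ≤ q') {c : ℕ → Bool} (hc : c 0 = true) :
    q' - q ≤ 4 * (val q c - val q' c) := by
  have e1 := val_succ n.one_lt c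
  have e2 := val_succ n'.one_lt c
  rw [hc, dg_true] at e1 e2
  have h1 := val_anti n.one_lt h (sh 1 c)
  have h2 := val_anti n.one_lt h c
  have h3 := val_nonneg n'.one_lt (sh 1 c)
  have h4 := (div_bd n' (val_nonneg n'.one_lt c) e2).1
  have h5 : (q' - q) * val q' c ≤ q * (val q c - val q' c) := by linarith only [e1, e2, h1]
  have h6 : (q' - q) * 0.5 ≤ (q' - q) * val q' c :=
    mul_le_mul_of_nonneg_left (by linarith only [h3, h4]) (by linarith only [h])
  nlinarith only [n.b1, e1, e2, h1, h2, h3, h4]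

theorem val_lip_inv (n : Nm q) (n' : Nm q') {c : ℕ → Bool} (hc : c 0 = true) :
    |q - q'| ≤ 4 * |val q c - val q' c| := by
  rcases le_total q q' with h | h
  · rw [abs_of_nonpos (by linarith), abs_of_nonneg (by linarith [val_anti n.one_lt h c])]
    linarith [val_lip_ge n n' h hc]
  · rw [abs_of_nonneg (by linarith), abs_of_nonpos (by linarith [val_anti n'.one_lt h c])]
    linarith [val_lip_ge n' n h hc]

theorem val_agree (hq : 1 < q) {c d : ℕ → Bool} {L : ℕ} (h : ∀ i < L, c i = d i) :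
    q ^ L * (val q c - val q d) = val q (sh L c) - val q (sh L d) := by
  rw [← T_val hq, ← T_val hq, T_congr _ h, T_sub]

theorem al_congr {g g' : ℕ → Bool} {k : ℕ} (h : ∀ i < k, g i = g' i) :
    ∀ i < 4 * k + 3, al g i = al g' i := by
  intro i hi
  simp only [al, cat]
  split_ifs with h3
  · rfl
  · exact psi_congr h _ (by omega)

theorem exists_root {g : ℕ → Bool} (hg : ∀ i < 19, g i = wd 338647 i) :
    ∃ q, Jf q ∧ val q (al g) = 1 := by
  have hw : ∀ i < 79, al g i = wd 355564789879825985391819 i := by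
    intro i hi
    rw [al_congr hg i hi]
    revert i; decide +kernel
  have J : ∀ x ∈ Set.Icc ((q1 : ℝ) / 2 ^ 80) ((q2 : ℝ) / 2 ^ 80), Jf x := by
    rintro x ⟨h1, h2⟩
    rw [div_le_iff₀ (by positivity)] at h1
    rw [le_div_iff₀ (by positivity)] at h2
    constructor <;> linarith
  have hle : (q1 : ℝ) / 2 ^ 80 ≤ (q2 : ℝ) / 2 ^ 80 := by
    unfold q1 q2; norm_num
  have hc : ContinuousOn (fun x => val x (al g))
      (Set.Icc ((q1 : ℝ) / 2 ^ 80) ((q2 : ℝ) / 2 ^ 80)) := by
    refine LipschitzOnWith.continuousOn (K := 2) (LipschitzOnWith.of_dist_le_mul ?_)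
    intro x hx y hy
    simpa only [Real.dist_eq, NNReal.coe_ofNat] using val_lip (J x hx).nm (J y hy).nm (al g)
  have n1 := (J _ (Set.left_mem_Icc.2 hle)).nm
  have n2 := (J _ (Set.right_mem_Icc.2 hle)).nm
  suffices hs : val ((q2 : ℝ) / 2 ^ 80) (al g) ≤ 1 ∧ 1 ≤ val ((q1 : ℝ) / 2 ^ 80) (al g) by
    obtain ⟨x, hx, h⟩ := intermediate_value_Icc' hle hc hs
    exact ⟨x, J x hx, h⟩
  constructor
  · generalize hx : (q2 : ℝ) / 2 ^ 80 = x at n2
    have e : (q2 : ℝ) = 2 ^ 80 * x := by rw [← hx]; field_simp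
    have h1 := lo_sound (w := 355564789879825985391819) (l := 2 ^ 80) (y := 1) e.le
      (by norm_num) 79
    have h2 : 2 ^ 81 ≤ lo q2 355564789879825985391819 (2 ^ 80) 79 := by decide +kernel
    have h3 : (2 : ℝ) ^ 81 ≤ lo q2 355564789879825985391819 (2 ^ 80) 79 := by exact_mod_cast h2
    rcases h1 with h1 | h1
    · omega
    · have h4 := T_sub (q := x) (al g) (val x (al g)) 1 79
      rw [T_val n2.one_lt, T_congr 1 hw] at h4
      have h5 := val_le n2.one_lt (sh 79 (al g))
      have h6 : x ^ 79 * (val x (al g) - 1) ≤ 0 := by linarith only [n2.bM, h3, h1, h4, h5]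
      have := nonpos_of_mul_nonpos_right h6 (pow_pos (by linarith only [n2.a1]) 79)
      linarith only [this]
  · generalize hx : (q1 : ℝ) / 2 ^ 80 = x at n1
    have e : (q1 : ℝ) = 2 ^ 80 * x := by rw [← hx]; field_simp
    have h1 := hi_sound (w := 355564789879825985391819) (h := 2 ^ 80) (y := 1)
      (by linarith [n1.a1]) e.ge (by norm_num) 79
    have h2 : hi q1 355564789879825985391819 (2 ^ 80) 79 = 0 := by decide +kernel
    rw [h2] at h1
    have h4 := T_sub (q := x) (al g) (val x (al g)) 1 79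
    rw [T_val n1.one_lt, T_congr 1 hw] at h4
    have h5 := val_nonneg n1.one_lt (sh 79 (al g))
    have h6 : 0 ≤ x ^ 79 * (val x (al g) - 1) := by push_cast at h1; linarith only [h4, h5, h1]
    have := nonneg_of_mul_nonneg_right h6 (pow_pos (by linarith only [n1.a1]) 79)
    linarith only [this]

/-- The word 111 followed by the image of `b` under `0 ↦ 01`, `1 ↦ 10`. -/
def gam (b : ℕ → Bool) : ℕ → Bool :=
  fun n => if n < 3 then true else xor (b ((n - 3) / 2)) (decide ((n - 3) % 2 = 1))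

theorem gam_pair (b : ℕ → Bool) (t : ℕ) : gam b (2 * t + 3) ≠ gam b (2 * t + 4) := by
  simp only [gam]
  rw [if_neg (by omega), if_neg (by omega), show (2 * t + 4 - 3) / 2 = t by omega,
    show (2 * t + 3 - 3) / 2 = t by omega, show (2 * t + 3 - 3) % 2 = 0 by omega,
    show (2 * t + 4 - 3) % 2 = 1 by omega]
  cases b t <;> simp

theorem gam_nt {b : ℕ → Bool} (h0 : b 0 = false) : NoTriple (gam b) := by
  rintro i ⟨h1, h2⟩
  rcases Nat.eq_zero_or_pos i with rfl | hi
  · simp only [gam, zero_add, Nat.lt_add_one, ↓ reduceIte, lt_self_iff_false, tsub_self, Nat.zero_div, h0, Nat.zero_mod, zero_ne_one, decide_false, bne_self_eq_false, Bool.true_eq_false] at h2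
  · rcases Nat.even_or_odd' i with ⟨t, rfl | rfl⟩
    · obtain ⟨t, rfl⟩ : ∃ s, t = s + 1 := ⟨t - 1, by omega⟩
      exact gam_pair b t h1
    · exact gam_pair b t h2

theorem gam_pre {b : ℕ → Bool} (h : ∀ i < 8, b i = wd 60 i) : ∀ i < 19, gam b i = wd 338647 i := by
  intro i hi
  have : gam b i = gam (wd 60) i := by
    simp only [gam]; split_ifs
    · rfl
    · rw [h _ (by omega)]
  rw [this]
  clear this; revert i; decide +kernel

def per (b : ℕ → Bool) (m : ℕ) : ℕ → Bool :=
  fun n => if n % (2 * m + 4) < 2 * m + 3 then gam b (n % (2 * m + 4)) else false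

theorem per_lt (b : ℕ → Bool) {m i : ℕ} (h : i < 2 * m + 3) : per b m i = gam b i := by
  simp only [per]; rw [Nat.mod_eq_of_lt (by omega), if_pos h]

theorem per_add (b : ℕ → Bool) (m k i : ℕ) : per b m (i + (2 * m + 4) * k) = per b m i := by
  simp only [per, Nat.add_mul_mod_self_left]

theorem per_last (b : ℕ → Bool) (m : ℕ) : per b m (2 * m + 3) = false := by
  simp only [per]; rw [Nat.mod_eq_of_lt (by omega), if_neg (by omega)]

theorem per_triple {b : ℕ → Bool} (h0 : b 0 = false) {m i : ℕ} (hm : 1 ≤ m)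
    (h1 : per b m i = per b m (i + 1)) (h2 : per b m (i + 1) = per b m (i + 2)) :
    ∃ k, i = (2 * m + 4) * k := by
  obtain ⟨k, r, hr, rfl⟩ : ∃ k r, r < 2 * m + 4 ∧ i = r + (2 * m + 4) * k :=
    ⟨i / (2 * m + 4), i % (2 * m + 4), Nat.mod_lt _ (by omega), (Nat.mod_add_div _ _).symm⟩
  rw [add_right_comm] at h1
  rw [add_right_comm, add_right_comm r _ 2] at h2
  simp only [per_add] at h1 h2
  have z : per b m (2 * m + 4) = true := by
    have := per_add b m 1 0
    rw [zero_add, mul_one] at this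
    rw [this, per_lt b (by omega)]; rfl
  rcases Nat.eq_zero_or_pos r with rfl | hr0
  · exact ⟨k, by simp⟩
  exfalso
  rcases (by omega : r + 2 < 2 * m + 3 ∨ r = 2 * m + 1 ∨ r = 2 * m + 2 ∨ r = 2 * m + 3) with
    h | rfl | rfl | rfl
  · obtain ⟨r, rfl⟩ : ∃ s, r = s + 1 := ⟨r - 1, by omega⟩
    rw [per_lt b (by omega), per_lt b (by omega)] at h1 h2
    exact gam_nt h0 r ⟨h1, h2⟩
  · obtain ⟨m, rfl⟩ : ∃ s, m = s + 1 := ⟨m - 1, by omega⟩
    rw [per_lt b (by omega), per_lt b (by omega)] at h1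
    exact gam_pair b m h1
  · rw [per_last, z] at h2; cases h2
  · rw [per_last, z] at h1; cases h1

theorem val_false (q : ℝ) : val q (fun _ => false) = 0 := by simp [val]

theorem per_mem {b : ℕ → Bool} (h0 : b 0 = false) {m : ℕ} (hm : 1 ≤ m) (n : Nm q)
    (hF : val q (al (per b m)) = 1) : q ∈ BAleph0 := by
  have hq := n.one_lt
  have st : ∀ i < 3, per b m i = true := fun i hi => by
    rw [per_lt b (by omega)]; simp [gam, hi]
  refine ⟨⟨hq, by linarith only [n.b1]⟩, 1, ⟨one_pos, by have := n.aM; unfold MM at this; linarith only [this]⟩, ?_⟩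
  rw [expansions_eq hq]
  let e : ℕ → ℕ → Bool := fun n =>
    cat (n + 1) (fun i => if i < n then al (per b m) i else true) fun _ => false
  have zero : ∀ i k, i + 1 = (2 * m + 4) * k → per b m i = false →
      q * val q (sh (4 * i + 3) (al (per b m))) - 1 = 0 := by
    intro i k hik hi
    have h1 := viol_eq (c := sh i (per b m)) hq hF (by simpa [sh] using hi)
    have h2 : sh 1 (sh i (per b m)) = per b m := by
      funext j; simp only [sh]; rw [add_assoc, add_comm 1 i, hik, per_add]
    rw [h2, sub_self] at h1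
    rw [sh_al]
    exact (mul_eq_zero.1 h1).resolve_left (by positivity)
  have hcount : (Ex q 1).Countable := by
    refine ((Set.countable_singleton (al (per b m))).union (Set.countable_range e)).mono
      fun d hd => ?_
    by_cases hne : d = al (per b m)
    · exact Or.inl hne
    obtain ⟨j, j1, j2⟩ := first_diff hne
    obtain ⟨b1, b2⟩ := branch hq (show val q d = _ by rw [hF]; exact hd) j1 j2
    have j3 : 3 ≤ j := by
      by_contra h; exact al_head n hF (by omega) b1
    obtain ⟨j, rfl⟩ : ∃ j', j = j' + 3 := ⟨j - 3, by omega⟩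
    obtain ⟨i, rfl, hi⟩ := block_of_Sw n (c := per b m) (m := j)
      (by rwa [← sh_sh, al, sh_cat] at b1)
    have bv := block_viol n hF st hi
    simp only [sh, zero_add] at bv
    obtain ⟨k, hk⟩ := per_triple h0 hm (i := i + 1)
      (by rw [show i + 1 = 0 + 1 + i by ring, bv 0 (by omega), ← bv 1 (by omega)]; congr 1; ring)
      (by rw [show i + 1 + 1 = 1 + 1 + i by ring, bv 1 (by omega), ← bv 2 (by omega)]
          congr 1; ring)
    have hi0 : per b m i = false := by
      have h1 := bv 0 (by omega)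
      have h2 := per_add b m k 0
      rw [zero_add, add_comm 1 i, hk] at h1
      rw [zero_add, h1, st 0 (by omega)] at h2
      simpa using h2
    have ea : al (per b m) (4 * i + 3) = false := by
      have := congrFun (sh_al (per b m) i) 0
      simp only [sh, psi, zero_add] at this
      simpa [hi0] using this
    rw [ea] at b2 j1
    simp only [Bool.not_false, dg_true, zero i k hk hi0] at b2
    have : sh (4 * i + 3 + 1) d = fun _ => false := by
      refine unique_of_no_branch hq (by rw [b2, val_false]) fun t ht => ?_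
      have := (Sw_bd n ht).1
      rw [show sh t (fun _ => false) = fun _ => false from rfl, val_false] at this
      linarith only [this]
    refine Or.inr ⟨4 * i + 3, ?_⟩
    simp only [e]
    rw [← this]
    refine cat_sh fun t ht => ?_
    split_ifs with h
    · exact j2 t h
    · obtain rfl : t = 4 * i + 3 := by omega
      simpa using j1
  have hinf : (Ex q 1).Infinite := by
    refine Set.infinite_of_injective_forall_mem
      (f := fun k => e (4 * (2 * m + 3 + (2 * m + 4) * k) + 3)) ?_ fun k => ?_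
    · have hinj : Function.Injective e := by
        intro s t hst
        by_contra hne
        wlog hlt : s < t generalizing s t
        · exact this hst.symm (Ne.symm hne) (by omega)
        have := congrFun hst t
        simp only [e, cat] at this
        rw [if_neg (by omega), if_pos (by omega), if_neg (by omega)] at this
        cases this
      intro s t hst
      have := hinj hst
      have h2 : (2 * m + 4) * s = (2 * m + 4) * t := by omega
      exact Nat.eq_of_mul_eq_mul_left (by omega) h2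
    · refine val_cat hq ?_
      rw [val_false, T, T_congr (w' := al (per b m)) _ (fun i hi => if_pos hi), if_neg (lt_irrefl _),
        ← hF, T_val hq, dg_true]
      exact (zero _ (k + 1) (by ring) (by rw [per_add, per_last])).symm
  have := hcount.to_subtype
  have := hinf.to_subtype
  exact Cardinal.mk_eq_aleph0 _

theorem mem_closure_B {b : ℕ → Bool} (h : ∀ i < 8, b i = wd 60 i) (n : Nm q)
    (hF : val q (al (gam b)) = 1) : q ∈ closure BAleph0 := by
  have hq := n.one_lt
  rw [Metric.mem_closure_iff]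
  intro e he
  obtain ⟨m0, hm0⟩ := pow_unbounded_of_one_lt (6 / e) hq
  have hag : ∀ i < 2 * (m0 + 8) + 3, per b (m0 + 8) i = gam b i := fun i hi => per_lt b hi
  obtain ⟨q', J', F'⟩ := exists_root (g := per b (m0 + 8))
    (fun i hi => by rw [hag i (by omega), gam_pre h i hi])
  refine ⟨q', per_mem (h 0 (by omega)) (by omega) J'.nm F', ?_⟩
  have h1 := val_lip_inv n J'.nm (c := al (per b (m0 + 8))) rfl
  have h2 := val_agree hq (L := m0) fun i hi => al_congr hag i (by omega)
  rw [hF] at h2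
  rw [F'] at h1
  have h3 : |q ^ m0 * (val q (al (per b (m0 + 8))) - 1)| ≤ 1.3 := by
    rw [h2, abs_le]
    constructor <;> linarith only [val_nonneg hq (sh m0 (al (per b (m0 + 8)))), val_le hq (sh m0 (al (per b (m0 + 8)))), val_nonneg hq (sh m0 (al (gam b))), val_le hq (sh m0 (al (gam b))), n.bM]
  rw [abs_mul, abs_of_pos (by positivity : 0 < q ^ m0)] at h3
  rw [div_lt_iff₀ he] at hm0
  rw [Real.dist_eq]
  by_contra hcon
  push Not at hcon
  have p : 0 < q ^ m0 := by positivity
  nlinarith only [he, hm0, h1, h3, hcon]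

end Pool.Agent.MP_b1d139_an

/-! A family of generic letter sequences with many free letters. -/

namespace Pool.Agent.MP_b1d139_an

open scoped NNReal ENNReal

def bet (s : ℕ → Bool) : ℕ → Bool := fun m =>
  if m < 8 then wd 60 m
  else if 2 ^ Nat.log 2 m ≤ 2 * (m - 2 ^ Nat.log 2 m) then s (m - 2 ^ Nat.log 2 m - 4)
  else (Nat.unpair (Nat.log 2 m)).1.testBit (m - 2 ^ Nat.log 2 m)

theorem bet_pre (s : ℕ → Bool) : ∀ i < 8, bet s i = wd 60 i := fun i hi => by simp [bet, hi]

theorem log_add {k o : ℕ} (h : o < 2 ^ k) : Nat.log 2 (2 ^ k + o) = k :=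
  Nat.log_eq_of_pow_le_of_lt_pow (by omega) (by rw [pow_succ]; omega)

theorem bet_word (s w : ℕ → Bool) (l : ℕ) : ∃ m, ∀ o < l, bet s (m + o) = w o := by
  let k := Nat.pair (Nat.ofBits fun i : Fin l => w i) (l + 3)
  have hk : l + 3 ≤ k := Nat.right_le_pair _ _
  obtain ⟨j, hj⟩ : ∃ j, k = j + 1 := ⟨k - 1, by omega⟩
  have h1 : j < 2 ^ j := Nat.lt_two_pow_self
  have h2 : 2 ^ k = 2 * 2 ^ j := by rw [hj, pow_succ']
  have h3 : 2 ^ 3 ≤ 2 ^ k := Nat.pow_le_pow_right (by omega) (by omega)
  refine ⟨2 ^ k, fun o ho => ?_⟩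
  simp only [bet]
  rw [if_neg (by omega), log_add (by omega), Nat.add_sub_cancel_left, if_neg (by omega)]
  simp only [k, Nat.unpair_pair]
  rw [Nat.testBit_ofBits_lt _ _ ho]

theorem bet_free (s : ℕ → Bool) (t : ℕ) :
    bet s (2 ^ (Nat.log 2 (t + 4) + 1) + (t + 4)) = s t ∧
      2 ^ (Nat.log 2 (t + 4) + 1) + (t + 4) ≤ 3 * (t + 4) := by
  have h1 : 2 ^ Nat.log 2 (t + 4) ≤ t + 4 := Nat.pow_log_le_self 2 (by omega)
  have h2 : t + 4 < 2 ^ (Nat.log 2 (t + 4) + 1) := Nat.lt_pow_succ_log_self (by omega) _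
  have h3 : 2 ^ (Nat.log 2 (t + 4) + 1) = 2 * 2 ^ Nat.log 2 (t + 4) := pow_succ' _ _
  refine ⟨?_, by omega⟩
  simp only [bet]
  rw [if_neg (by omega), log_add h2, Nat.add_sub_cancel_left, if_pos (by omega),
    Nat.add_sub_cancel]

theorem gam_at (b : ℕ → Bool) (m a : ℕ) :
    gam b (3 + 2 * m + a) = xor (b (m + a / 2)) (decide (a % 2 = 1)) := by
  simp only [gam]
  rw [if_neg (by omega), show (3 + 2 * m + a - 3) / 2 = m + a / 2 by omega,
    show (3 + 2 * m + a - 3) % 2 = a % 2 by omega]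

theorem gen_bet (s : ℕ → Bool) : Gen (gam (bet s)) := by
  have x1 : ∀ (P Q : Prop) [Decidable P] [Decidable Q],
      xor (decide P) (decide Q) = true ↔ ¬ (P ↔ Q) := by
    intro P Q _ _; by_cases P <;> by_cases Q <;> simp [*]
  have x2 : ∀ (P Q : Prop) [Decidable P] [Decidable Q],
      xor (decide P) (decide Q) = false ↔ (P ↔ Q) := by
    intro P Q _ _; by_cases P <;> by_cases Q <;> simp [*]
  have key : ∀ a a' b b' : ℕ, a' + 2 ≤ a → a ≠ b → a ≠ b' → a' ≠ b → a' ≠ b' →
      (b / 2 = b' / 2 → b = b') → ∃ N, gam (bet s) (N + a) = true ∧ gam (bet s) (N + a') = true ∧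
        gam (bet s) (N + b) = false ∧ gam (bet s) (N + b') = false := by
    intro a a' b b' h1 h2 h3 h4 h5 h6
    obtain ⟨m, hm⟩ := bet_word s (fun o =>
      if o = a / 2 then decide (a % 2 = 0) else if o = a' / 2 then decide (a' % 2 = 0)
      else if o = b / 2 then decide (b % 2 = 1) else decide (b' % 2 = 1)) (a + b + b' + 1)
    refine ⟨3 + 2 * m, ?_, ?_, ?_, ?_⟩ <;> rw [gam_at, hm _ (by omega)] <;> split_ifs <;>
      simp only [x1, x2] <;> omega
  intro a a' b b' h1 h2 h3 h4 h5
  by_cases h : b / 2 = b' / 2 → b = b'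
  · exact key a a' b b' h1 h2 h3 h4 h5 h
  · obtain ⟨N, hN⟩ := key (1 + a) (1 + a') (1 + b) (1 + b') (by omega) (by omega) (by omega)
      (by omega) (by omega) (by omega)
    exact ⟨N + 1, by simpa only [add_assoc] using hN⟩

noncomputable def base (s : ℕ → Bool) : ℝ :=
  (exists_root (gam_pre (bet_pre s))).choose

theorem base_hy (s : ℕ → Bool) : Hy (base s) (gam (bet s)) :=
  ⟨(exists_root (gam_pre (bet_pre s))).choose_spec.1,
    (exists_root (gam_pre (bet_pre s))).choose_spec.2, fun i hi => by simp [gam, hi],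
    gam_nt (bet_pre s 0 (by omega))⟩

theorem base_mem (s : ℕ → Bool) (ht : Transcendental ℤ (base s)) :
    base s ∈ (closure BAleph0 ∩ Set.Ioo 1 2) \ BAleph0 := by
  have H := base_hy s
  have n := H.J.nm
  refine ⟨⟨mem_closure_B (bet_pre s) n H.F, n.one_lt, by linarith [n.b1]⟩, ?_⟩
  rintro ⟨-, x, -, hx⟩
  rw [expansions_eq n.one_lt] at hx
  have h1 : (Ex (base s) x).Countable := Cardinal.le_aleph0_iff_set_countable.1 hx.le
  have h2 := finite_of_countable H (fun c P => finite_V H (gen_bet s) P) ht h1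
  exact absurd (Cardinal.lt_aleph0_iff_set_finite.2 h2) (by rw [hx]; exact lt_irrefl _)

theorem base_sep {s s' : ℕ → Bool} {t : ℕ} (h : s t ≠ s' t) :
    1 ≤ 2 ^ (24 * t + 116) * |base s - base s'| := by
  have H := base_hy s
  have H' := base_hy s'
  have n := H.J.nm
  have hq := n.one_lt
  obtain ⟨f1, f2⟩ := bet_free s t
  have f1' := (bet_free s' t).1
  generalize 2 ^ (Nat.log 2 (t + 4) + 1) + (t + 4) = p at f1 f2 f1'
  obtain ⟨i, hi, h1, -⟩ := mag_V n (b := gam (bet s')) (u := gam (bet s)) (k := 6 * t + 28)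
    (e := V (base s) (gam (bet s')) - V (base s) (gam (bet s))) (by ring)
    ⟨3 + 2 * p + 0, by omega, by
      rw [gam_at, gam_at]; simpa [f1, f1'] using h.symm⟩
  have h2 := val_agree hq (c := al (gam (bet s'))) (d := al (gam (bet s))) (L := 4 * 0 + 3)
    (al_congr (by omega))
  rw [sh_al, sh_al, H.F] at h2
  have h3 := val_lip n H'.J.nm (al (gam (bet s')))
  rw [H'.F] at h3
  unfold V at h1
  simp only [sh_zero] at h2
  rw [← h2, ← mul_assoc, ← pow_add, abs_mul, abs_of_pos (by positivity)] at h1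
  have h4 : base s ^ (4 * (i + 1) + (4 * 0 + 3)) ≤ 2 ^ (24 * t + 115) :=
    (pow_le_pow_left₀ (by linarith only [hq]) (by linarith only [n.b1]) _).trans
      (pow_le_pow_right₀ (by norm_num) (by omega))
  have h5 := mul_le_mul h4 h3 (abs_nonneg _) (by positivity)
  rw [pow_succ]
  linarith only [h1, h5]

theorem base_inj : Function.Injective base := by
  intro s s' h
  funext t
  by_contra hne
  have := base_sep hne
  rw [h, sub_self, abs_zero, mul_zero] at this
  linarith

theorem base_holder (s s' : ℕ → Bool) :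
    |val 2 s - val 2 s'| ≤ 32 * |base s - base s'| ^ ((24 : ℕ) : ℝ)⁻¹ := by
  by_cases hne : s = s'
  · rw [hne, sub_self, abs_zero]; positivity
  obtain ⟨t, h1, h2⟩ := first_diff hne
  have h3 := base_sep h1
  have h4 := val_agree (q := 2) (by norm_num) h2
  have hM : MM 2 = 1 := by norm_num [MM]
  have h5 : 2 ^ t * |val 2 s - val 2 s'| ≤ 1 := by
    rw [← abs_of_pos (by positivity : (0 : ℝ) < 2 ^ t), ← abs_mul, h4, abs_le]
    constructor <;> linarith only [val_nonneg (q := 2) (by norm_num) (sh t s), val_le (q := 2) (by norm_num) (sh t s), val_nonneg (q := 2) (by norm_num) (sh t s'), val_le (q := 2) (by norm_num) (sh t s'), hM]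
  have h6 : (|val 2 s - val 2 s'| / 32) ^ 24 ≤ |base s - base s'| := by
    have h7 : (2 ^ t * |val 2 s - val 2 s'|) ^ 24 ≤ 1 := pow_le_one₀ (by positivity) h5
    refine le_of_mul_le_mul_left (le_trans ?_ h3) (by positivity : (0 : ℝ) < 2 ^ (24 * t + 116))
    refine le_trans ?_ h7
    have : (2 : ℝ) ^ (24 * t + 116) * (|val 2 s - val 2 s'| / 32) ^ 24 =
        (2 ^ t * |val 2 s - val 2 s'|) ^ 24 / 16 := by ring
    rw [this]
    have : 0 ≤ (2 ^ t * |val 2 s - val 2 s'|) ^ 24 := by positivity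
    linarith only [this]
  have h8 := Real.rpow_le_rpow (by positivity) h6 (by positivity : 0 ≤ ((24 : ℕ) : ℝ)⁻¹)
  rw [Real.pow_rpow_inv_natCast (by positivity) (by norm_num)] at h8
  linarith only [h8]

theorem val_two_surj {x : ℝ} (hx : x ∈ Set.Icc (0 : ℝ) 1) : ∃ s, val 2 s = x := by
  classical
  let o : ℕ → ℝ := fun k => Nat.rec x (fun _ v => 2 * v - dg (decide (1 ≤ 2 * v))) k
  have ho : ∀ k, T 2 (fun k => decide (1 ≤ 2 * o k)) x k = o k := by
    intro k
    induction k with
    | zero => rfl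
    | succ k ih => rw [T, ih]
  have hb : ∀ k, o k ∈ Set.Icc (0 : ℝ) 1 := by
    intro k
    induction k with
    | zero => exact hx
    | succ k ih =>
      change 2 * o k - dg (decide (1 ≤ 2 * o k)) ∈ _
      by_cases h : 1 ≤ 2 * o k
      · simp only [h, decide_true, dg_true]; constructor <;> linarith [ih.2]
      · simp only [h, decide_false, dg_false]; constructor <;> linarith [ih.1]
  exact ⟨_, val_eq_of_bdd (by norm_num) fun N => ⟨N, le_rfl, by
    rw [ho, show MM 2 = 1 by norm_num [MM]]; exact hb N⟩⟩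

theorem dimH_range_base : 0 < dimH (Set.range base) := by
  let f : ℝ → ℝ := fun x => val 2 (Function.invFun base x)
  have hf : ∀ s, f (base s) = val 2 s := fun s => by
    simp only [f]; rw [Function.leftInverse_invFun base_inj s]
  have hH : HolderOnWith 32 (24 : ℝ≥0)⁻¹ f (Set.range base) := by
    rintro _ ⟨s, rfl⟩ _ ⟨s', rfl⟩
    rw [hf, hf, edist_dist, edist_dist, Real.dist_eq, Real.dist_eq,
      ENNReal.ofReal_rpow_of_nonneg (abs_nonneg _) (by positivity)]
    refine (ENNReal.ofReal_le_ofReal (base_holder s s')).trans (le_of_eq ?_)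
    rw [ENNReal.ofReal_mul (by norm_num)]
    norm_num
  have h1 := hH.dimH_image_le (by positivity)
  have h2 : Set.Icc (0 : ℝ) 1 ⊆ f '' Set.range base := by
    intro x hx
    obtain ⟨s, rfl⟩ := val_two_surj hx
    exact ⟨base s, ⟨s, rfl⟩, hf s⟩
  have h3 : dimH (Set.Icc (0 : ℝ) 1) = 1 := by
    rw [Real.dimH_of_nonempty_interior (by simp only [interior_Icc, Set.nonempty_Ioo, zero_lt_one])]; simp
  have h4 := (dimH_mono h2).trans h1
  rw [pos_iff_ne_zero]
  intro h0
  rw [h0, h3] at h4
  simp at h4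

theorem main : 0 < dimH ((closure BAleph0 ∩ Set.Ioo 1 2) \ BAleph0) := by
  have h1 : Set.range base ⊆ ((closure BAleph0 ∩ Set.Ioo 1 2) \ BAleph0) ∪
      {x : ℝ | IsAlgebraic ℤ x} := by
    rintro _ ⟨s, rfl⟩
    by_cases h : IsAlgebraic ℤ (base s)
    · exact Or.inr h
    · exact Or.inl (base_mem s h)
  have h2 := lt_of_lt_of_le dimH_range_base (dimH_mono h1)
  rwa [dimH_union, (Algebraic.countable ℤ ℝ).dimH_zero, max_eq_left zero_le] at h2

end Pool.Agent.MP_b1d139_an
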