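import Pool.Agent.MP_b1d139_an.CoreB

attribute [-instance] Fintype.decidableForallFintype Finset.decidableDforallFinset
  Multiset.decidableDforallMultiset Vector.instDecidableForallForallMemOfDecidablePred
  Array.instDecidableForallForallMemOfDecidablePred Option.decidableForallMem Int.decidableLTLE
  Int.decidableLTLT Int.decidableLELT Int.decidableLELE forall_prop_decidable
  AddQuantale.instAddLeftMono MeasurableSingletonClass.toDiscreteMeasurableSpace
  Finite.instDiscreteTopology Group.IsPerfect.subsingleton_of_isMulCommutative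
  TopologicalSpace.PseudoMetrizableSpace.toMetrizableSpace NormedAlgebra.toAlgebra
  Fintype.decidableExistsFintype NumberField.to_charZero littleWedderburn
  DiscreteUniformity.instOfFiniteOfDiscreteTopology AddQuantale.instAddRightMono
  DiscreteUniformity.instDiscreteTopology instCoeOTCOfCoeTC IdemSemiring.toCanonicallyOrderedAdd
  instDiscreteTopologyOfAlexandrovDiscreteOfT1Space RKHS.instFunLike NeZero.of_gt'
  Quantale.instMulRightMono MetricSpace.toIsCompletelyMetrizableSpace
  CStarAlgebra.instOrderClosedTopology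

/-! A sparse set of integers attached to a relation on the natural numbers. -/

namespace Pool.Agent.MP_b1d139_an

def FF (n : ℕ) : ℕ := 16 ^ (n + 2)

theorem FF_lt {u t : ℕ} (h : u < t) : 16 * FF u ≤ FF t := by
  unfold FF; rw [← pow_succ']; exact Nat.pow_le_pow_right (by omega) (by omega)

theorem FF_dvd (n : ℕ) : FF n % 256 = 0 := by
  unfold FF; rw [pow_add]; simp

theorem FF_ge (n : ℕ) : 256 * (n + 1) ≤ FF n := by
  induction n with
  | zero => simp [FF]
  | succ n ih => have := FF_lt (show n < n + 1 by omega); omega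

theorem FF_tri (u t : ℕ) : (u = t ∧ FF u = FF t) ∨ (u < t ∧ 16 * FF u ≤ FF t) ∨
    (t < u ∧ 16 * FF t ≤ FF u) := by
  rcases lt_trichotomy u t with h | h | h
  · exact Or.inr (Or.inl ⟨h, FF_lt h⟩)
  · exact Or.inl ⟨h, by rw [h]⟩
  · exact Or.inr (Or.inr ⟨h, FF_lt h⟩)

variable {R : ℕ → ℕ → Prop}

def InD (R : ℕ → ℕ → Prop) (d : ℕ) : Prop := ∃ u t, u < t ∧ R u t ∧ d + FF u = FF t

def Bad (R : ℕ → ℕ → Prop) (e : ℕ) : Prop := ∃ d, InD R d ∧ (e = d + 8 ∨ e + 8 = d)

def InE (R : ℕ → ℕ → Prop) (n : ℕ) : Prop :=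
  (2 ≤ n ∧ n ≤ 5) ∨ (∃ d, InD R d ∧ n = d + 2) ∨
    ∃ p, n = 3 * FF p ∨ (n = 3 * FF p + (Nat.unpair p).1 ∧ ¬ Bad R (Nat.unpair p).1)

theorem InE_small {n : ℕ} (h : n < 700) : InE R n ↔ 2 ≤ n ∧ n ≤ 5 := by
  refine ⟨?_, Or.inl⟩
  rintro (h | ⟨d, ⟨u, t, h1, -, h2⟩, rfl⟩ | ⟨p, h1 | ⟨h1, -⟩⟩)
  · exact h
  · have := FF_lt h1; have := FF_ge u; omega
  · have := FF_ge p; omega
  · have := FF_ge p; omega

theorem not_bad_zero : ¬ Bad R 0 := by
  rintro ⟨d, ⟨u, t, h1, -, h2⟩, h⟩
  have := FF_lt h1; have := FF_ge u; omega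

theorem not_bad_succ (e : ℕ) : ¬ Bad R e ∨ ¬ Bad R (e + 1) := by
  by_contra h
  push Not at h
  obtain ⟨⟨d, ⟨u, t, -, -, h2⟩, h3⟩, ⟨d', ⟨u', t', -, -, h2'⟩, h3'⟩⟩ := h
  have := FF_dvd u; have := FF_dvd t; have := FF_dvd u'; have := FF_dvd t'
  omega

theorem realize {e : ℕ} (he : ¬ Bad R e) (W : ℕ) : ∃ P, W ≤ P ∧
    ∀ o, P ≤ o + W → o ≤ P + e + W → (InE R o ↔ o = P ∨ o = P + e) := by
  have h1 := Nat.left_le_pair e W
  have h2 := Nat.right_le_pair e W
  have h3 := FF_ge (Nat.pair e W)
  refine ⟨3 * FF (Nat.pair e W), by omega, fun o o1 o2 => ⟨?_, ?_⟩⟩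
  · rintro (h | ⟨d, ⟨u, t, a1, -, a2⟩, rfl⟩ | ⟨p, h⟩)
    · omega
    · have := FF_lt a1; have := FF_ge u; have := FF_tri t (Nat.pair e W); omega
    · have := Nat.unpair_left_le p
      have := FF_ge p
      rcases FF_tri p (Nat.pair e W) with ⟨rfl, -⟩ | h' | h'
      · rw [Nat.unpair_pair] at h; omega
      · omega
      · omega
  · rintro (h | h)
    · exact Or.inr (Or.inr ⟨_, Or.inl h⟩)
    · exact Or.inr (Or.inr ⟨Nat.pair e W, Or.inr (by rw [Nat.unpair_pair]; exact ⟨h, he⟩)⟩)

theorem near_diff {u t d n : ℕ} (hut : u < t) (hd : d + FF u = FF t) (hn : InE R n)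
    (h1 : n ≤ d + 20) (h2 : d ≤ n + 20) : n = d + 2 ∧ R u t := by
  have := FF_lt hut; have := FF_ge u; have := FF_dvd u; have := FF_dvd t
  rcases hn with h | ⟨d', ⟨u', t', a1, a3, a2⟩, rfl⟩ | ⟨p, h⟩
  · omega
  · have := FF_dvd u'; have := FF_dvd t'; have := FF_lt a1; have := FF_ge u'
    have e : d' = d := by omega
    subst e
    have : t' = t := by have := FF_tri t t'; omega
    subst this
    have : u' = u := by have := FF_tri u u'; omega
    subst this
    exact ⟨rfl, a3⟩
  · have := Nat.unpair_left_le p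
    have := FF_ge p
    have := FF_tri p t
    omega

theorem InE_iff_rel {u t d : ℕ} (hut : u < t) (hd : d + FF u = FF t) : InE R (d + 2) ↔ R u t :=
  ⟨fun h => (near_diff hut hd h (by omega) (by omega)).2,
    fun h => Or.inr (Or.inl ⟨d, ⟨u, t, hut, h, hd⟩, rfl⟩)⟩

theorem no_bad_pair {d a b : ℕ} (hd : InD R d) (ha : InE R a ∨ a = 6) (hb : InE R b ∨ b = 6)
    (h : a = b + d + 8 ∨ a + 8 = b + d) : False := by
  have hbad : Bad R (a - b) := ⟨d, hd, by
    obtain ⟨u, t, h1, -, h2⟩ := hd
    have := FF_lt h1; have := FF_ge u; omega⟩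
  obtain ⟨u, t, h1, -, h2⟩ := hd
  have := FF_lt h1; have := FF_ge u; have := FF_dvd u; have := FF_dvd t
  have ha : InE R a := ha.resolve_right (by omega)
  by_cases hb7 : b ≤ 7
  · have h3 := (near_diff h1 h2 ha (by omega) (by omega)).1
    omega
  have hb : InE R b := hb.resolve_right (by omega)
  rcases ha with h3 | ⟨d', ⟨u', t', a1, -, a2⟩, rfl⟩ | ⟨p, hp⟩
  · omega
  · have := FF_dvd u'; have := FF_dvd t'; have := FF_lt a1; have := FF_ge u'
    rcases hb with h4 | ⟨d'', ⟨u'', t'', -, -, b2⟩, rfl⟩ | ⟨p, hp⟩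
    · omega
    · have := FF_dvd u''; have := FF_dvd t''; omega
    · have := Nat.unpair_left_le p
      have := FF_ge p
      have hpt : 16 * FF p ≤ FF t' := by have := FF_tri p t'; omega
      have htt : FF t = FF t' := by have := FF_tri t t'; omega
      have := FF_tri p u'; have := FF_tri u p; have := FF_tri u u'
      omega
  · have := Nat.unpair_left_le p
    have := FF_ge p
    have hpt := FF_tri p t
    rcases hb with h4 | ⟨d'', ⟨u'', t'', b1, -, b2⟩, rfl⟩ | ⟨p', hp'⟩
    · omega
    · have := FF_lt b1; have := FF_ge u''; have := FF_tri p t''; omega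
    · have := Nat.unpair_left_le p'
      have := FF_ge p'
      rcases FF_tri p p' with ⟨rfl, -⟩ | h' | h'
      · rcases hp with hp | ⟨hp, hs⟩
        · omega
        · rcases hp' with hp' | ⟨hp', -⟩
          · exact hs (by rwa [show a - b = (Nat.unpair p).1 by omega] at hbad)
          · omega
      · omega
      · omega

theorem clique {x f : ℕ → ℕ} (hx : StrictMono x)
    (h : ∀ k m, k < m → x k ≤ f m ∧ Bad R (f m - x k)) :
    ∃ w : ℕ → ℕ, Function.Injective w ∧ ∀ k m, ∃ t, R (w k) t ∧ R (w m) t := by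
  have h' : ∀ k m, ∃ u t, k < m → u < t ∧ R u t ∧
      (f m + FF u = x k + FF t + 8 ∨ f m + FF u + 8 = x k + FF t) := by
    intro k m
    by_cases hkm : k < m
    · obtain ⟨h1, d, ⟨u, t, a1, a2, a3⟩, h2⟩ := h k m hkm
      exact ⟨u, t, fun _ => ⟨a1, a2, by omega⟩⟩
    · exact ⟨0, 0, fun h => absurd h hkm⟩
  choose U T hUT using h'
  have gap : ∀ a b, a + b ≤ a + x b := fun a b => Nat.add_le_add_left hx.le_apply a
  have gap' : ∀ k j, x k + j ≤ x (k + j) := fun k j => by
    have := hx.add_le_nat j k; rw [add_comm k j]; omega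
  have top : ∀ k k' m, k ≤ k' → 2 * x k' + k' + 100 < m → T k m = T k' m := by
    intro k k' m h1 h2
    obtain ⟨a1, -, a3⟩ := hUT k m (by omega)
    obtain ⟨b1, -, b3⟩ := hUT k' m (by omega)
    have := (h (m - 1) m (by omega)).1
    have := gap 0 (m - 1)
    have := hx.monotone h1
    have := FF_lt a1; have := FF_lt b1; have := FF_tri (T k m) (T k' m)
    omega
  have dif : ∀ k k' m m', k + 17 ≤ k' → 2 * x k' + k' + 100 < m → 2 * x k' + k' + 100 < m' →
      U k m = U k m' ∧ U k m < U k' m := by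
    intro k k' m m' h1 h2 h3
    obtain ⟨-, -, a3⟩ := hUT k m (by omega)
    obtain ⟨-, -, b3⟩ := hUT k' m (by omega)
    obtain ⟨-, -, c3⟩ := hUT k m' (by omega)
    obtain ⟨-, -, d3⟩ := hUT k' m' (by omega)
    rw [top k k' m (by omega) h2] at a3
    rw [top k k' m' (by omega) h3] at c3
    have := gap' k 17
    have := hx.monotone h1
    have := FF_dvd (U k m); have := FF_dvd (U k' m); have := FF_dvd (U k m')
    have := FF_dvd (U k' m')
    have e1 : FF (U k' m) + FF (U k m') = FF (U k' m') + FF (U k m) := by omega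
    have e2 : FF (U k m) < FF (U k' m) := by omega
    have e3 : FF (U k m') < FF (U k' m') := by omega
    clear a3 b3 c3 d3
    have e4 : U k m < U k' m := by have := FF_tri (U k m) (U k' m); omega
    have e5 : U k m' < U k' m' := by have := FF_tri (U k m') (U k' m'); omega
    have e6 := FF_lt e4
    have e7 := FF_lt e5
    have e8 : FF (U k' m) = FF (U k' m') := by have := FF_tri (U k' m) (U k' m'); omega
    have := FF_ge (U k m); have := FF_ge (U k m')
    have := FF_tri (U k m) (U k m')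
    omega
  let B : ℕ → ℕ := fun n => 2 * x (17 * (n + 1)) + 17 * (n + 1) + 101
  have hB : ∀ n n', n ≤ n' → B n ≤ B n' := fun n n' hn => by
    have := hx.monotone (show 17 * (n + 1) ≤ 17 * (n' + 1) by omega)
    simp only [B]; omega
  have stab : ∀ n m, B n ≤ m → U (17 * n) (B n) = U (17 * n) m := fun n m hm =>
    (dif (17 * n) (17 * (n + 1)) _ _ (by omega) (by simp only [B]; omega)
      (by simp only [B] at hm; omega)).1
  have small : ∀ n, 2 * x (17 * n) + 17 * n + 100 < B n := fun n => by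
    have := hx.monotone (show 17 * n ≤ 17 * (n + 1) by omega)
    simp only [B]; omega
  refine ⟨fun n => U (17 * n) (B n), StrictMono.injective fun n n' hn => ?_, fun k m => ?_⟩
  · rw [stab n (B n') (hB _ _ hn.le)]
    exact (dif (17 * n) (17 * n') _ _ (by omega) (small n') (small n')).2
  · wlog hkm : k ≤ m generalizing k m
    · obtain ⟨t, h1, h2⟩ := this m k (by omega); exact ⟨t, h2, h1⟩
    have := small m
    refine ⟨T (17 * m) (B m), ?_, (hUT _ _ (by omega)).2.1⟩
    simp only
    rw [stab k (B m) (hB _ _ hkm), ← top (17 * k) (17 * m) _ (by omega) this]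
    exact (hUT _ _ (by omega)).2.1

end Pool.Agent.MP_b1d139_an

/-! Infinitely many expansions of a pure point force an infinite clique. -/

namespace Pool.Agent.MP_b1d139_an

open Classical in
noncomputable def bE (R : ℕ → ℕ → Prop) : ℕ → Bool := fun n => decide (InE R n)

def Cl (R : ℕ → ℕ → Prop) : Prop :=
  ∃ w : ℕ → ℕ, Function.Injective w ∧ ∀ k m, ∃ t, R (w k) t ∧ R (w m) t

variable {R : ℕ → ℕ → Prop} {q : ℝ}

theorem bE_pre : ∀ i < 8, bE R i = wd 60 i := by
  intro i hi
  have : bE R i = decide (2 ≤ i ∧ i ≤ 5) := by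
    simp only [bE]; rw [decide_eq_decide]; exact InE_small (by omega)
  rw [this]
  clear this; revert i; decide

theorem win {e : ℕ} (he : ¬ Bad R e) (W : ℕ) : ∃ P, W ≤ P ∧ ∀ n, 3 + 2 * P ≤ n + 2 * W →
    n ≤ 3 + 2 * (P + e + W) →
      (((n - 3) / 2 = P ∨ (n - 3) / 2 = P + e) → gam (bE R) n = decide (n % 2 = 1)) ∧
      (¬ ((n - 3) / 2 = P ∨ (n - 3) / 2 = P + e) → gam (bE R) n = decide (n % 2 = 0)) := by
  classical
  obtain ⟨P, h1, h2⟩ := realize he W
  refine ⟨P, h1, fun n n1 n2 => ?_⟩
  have h3 := h2 ((n - 3) / 2) (by omega) (by omega)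
  simp only [gam, bE]
  rw [if_neg (by omega)]
  constructor
  · intro h
    rw [decide_eq_true (h3.2 h)]
    rcases Nat.mod_two_eq_zero_or_one n with h4 | h4
    · simp [h4, show (n - 3) % 2 = 1 by omega]
    · simp [h4, show (n - 3) % 2 = 0 by omega]
  · intro h
    rw [decide_eq_false (fun h' => h (h3.1 h'))]
    rcases Nat.mod_two_eq_zero_or_one n with h4 | h4
    · simp [h4, show (n - 3) % 2 = 1 by omega]
    · simp [h4, show (n - 3) % 2 = 0 by omega]

theorem sparse_seq {S : Set ℕ} (hS : S.Infinite) (f : ℕ → ℕ) :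
    ∃ s : ℕ → ℕ, (∀ k, s k ∈ S) ∧ ∀ k m, k < m → s k + f (s k) < s m := by
  choose nx h1 h2 using hS.exists_gt
  let s : ℕ → ℕ := fun k => Nat.rec (nx 0) (fun _ a => nx (a + f a)) k
  have h3 : ∀ k, s k + f (s k) < s (k + 1) := fun k => h2 _
  have h4 : StrictMono s := strictMono_nat_of_lt_succ fun k => by have := h3 k; omega
  exact ⟨s, fun k => by cases k <;> exact h1 _, fun k m h =>
    lt_of_lt_of_le (h3 k) (h4.monotone h)⟩

theorem infinite_class {S : Set ℕ} (hS : S.Infinite) (f g : ℕ → Bool) :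
    ∃ a b, {i | i ∈ S ∧ f i = a ∧ g i = b}.Infinite := by
  by_contra h
  push Not at h
  refine hS ((((h true true).union (h true false)).union
    ((h false true).union (h false false))).subset fun i hi => ?_)
  cases h1 : f i <;> cases h2 : g i <;> simp [hi, h1, h2]

theorem pair_same {c : ℕ → Bool} {i j i' j' : ℕ} (j0 : 3 ≤ j) (j0' : 3 ≤ j')
    (h : i + j + 4 < i') (p1 : i % 2 = i' % 2) (p2 : j % 2 = j' % 2)
    (c1 : ∀ k, gam (bE R) k ≠ gam (bE R) (k + j + 1) → c (k + j + 2 + i) = gam (bE R) (k + j + 1))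
    (c2 : ∀ k, gam (bE R) k ≠ gam (bE R) (k + j' + 1) →
      c (k + j' + 2 + i') = gam (bE R) (k + j' + 1)) :
    j % 2 = 1 ∧ Bad R ((i' + j' + 1) / 2 - i / 2) := by
  rcases Nat.mod_two_eq_zero_or_one j with hj | hj
  · exfalso
    obtain ⟨r, r1, hr⟩ : ∃ r, r ≤ 1 ∧ ¬ Bad R (j / 2 + r) :=
      (not_bad_succ (j / 2)).elim (fun h => ⟨0, by omega, h⟩) fun h => ⟨1, le_rfl, h⟩
    obtain ⟨P, hP, w⟩ := win hr (i' + j' + 1)
    obtain ⟨k', hk'⟩ : ∃ k', k' + j' + i' = 3 + 2 * P + r + j + i :=
      ⟨3 + 2 * P + r + j + i - j' - i', by omega⟩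
    have a1 := (w (3 + 2 * P + r) (by omega) (by omega)).1 (by omega)
    have a2 := (w (3 + 2 * P + r + j + 1) (by omega) (by omega)).1 (by omega)
    have a3 := (w k' (by omega) (by omega)).2 (by omega)
    have a4 := (w (k' + j' + 1) (by omega) (by omega)).2 (by omega)
    have b1 := c1 (3 + 2 * P + r) (by rw [a1, a2, Ne, decide_eq_decide]; omega)
    have b2 := c2 k' (by rw [a3, a4, Ne, decide_eq_decide]; omega)
    rw [show k' + j' + 2 + i' = 3 + 2 * P + r + j + 2 + i by omega, b1, a2, a4,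
      decide_eq_decide] at b2
    omega
  · refine ⟨hj, ?_⟩
    by_contra hr
    obtain ⟨P, hP, w⟩ := win hr 0
    obtain ⟨k, hk⟩ : ∃ k, k + j + i = 3 + 2 * P + j' + i' :=
      ⟨3 + 2 * P + j' + i' - j - i, by omega⟩
    have a1 := (w k (by omega) (by omega)).2 (by omega)
    have a2 := (w (k + j + 1) (by omega) (by omega)).1 (by omega)
    have a3 := (w (3 + 2 * P) (by omega) (by omega)).1 (by omega)
    have a4 := (w (3 + 2 * P + j' + 1) (by omega) (by omega)).2 (by omega)
    have b1 := c1 k (by rw [a1, a2, Ne, decide_eq_decide]; omega)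
    have b2 := c2 (3 + 2 * P) (by rw [a3, a4, Ne, decide_eq_decide]; omega)
    rw [show 3 + 2 * P + j' + 2 + i' = k + j + 2 + i by omega, b1, a2, a4,
      decide_eq_decide] at b2
    omega

theorem fin_viol (H : Hy q (gam (bE R))) (hno : ¬ Cl R) {c : ℕ → Bool}
    (P : Pure q (gam (bE R)) (V q c)) : {i | c i = false ∧ V q (sh i c) ∈ Sw q}.Finite := by
  have hq := H.J.nm.one_lt
  by_contra hS
  have : ∀ i, ∃ j, i ∈ {i | c i = false ∧ V q (sh i c) ∈ Sw q} → 3 ≤ j ∧ ∀ k,
      gam (bE R) k ≠ gam (bE R) (k + j + 1) → c (k + j + 2 + i) = gam (bE R) (k + j + 1) := by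
    intro i
    by_cases hi : i ∈ {i | c i = false ∧ V q (sh i c) ∈ Sw q}
    · obtain ⟨j, b, j0, -, j2, -⟩ := viol H (P.V_sh hq i) (by simpa [sh] using hi.1) hi.2
      exact ⟨j, fun _ => ⟨j0, fun k hk => (j2 k hk).1⟩⟩
    · exact ⟨0, fun h => absurd h hi⟩
  choose J hJ using this
  obtain ⟨a, b, hab⟩ := infinite_class hS (fun i => decide (i % 2 = 1)) fun i => decide (J i % 2 = 1)
  obtain ⟨s, s1, s2⟩ := sparse_seq hab fun i => J i + 4
  have key : ∀ k m, k < m → J (s k) % 2 = 1 ∧ Bad R ((s m + J (s m) + 1) / 2 - s k / 2) := by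
    intro k m hkm
    obtain ⟨a1, a2, a3⟩ := s1 k
    obtain ⟨b1, b2, b3⟩ := s1 m
    have e1 := decide_eq_decide.1 (a2.trans b2.symm)
    have e2 := decide_eq_decide.1 (a3.trans b3.symm)
    exact pair_same (hJ _ a1).1 (hJ _ b1).1 (s2 k m hkm) (by omega) (by omega) (hJ _ a1).2
      (hJ _ b1).2
  exact hno (clique (x := fun k => s k / 2) (f := fun m => (s m + J (s m) + 1) / 2)
    (fun k m h => by have := s2 k m h; simp only; omega)
    fun k m h => ⟨by have := s2 k m h; omega, (key k m h).2⟩)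

theorem chain_clique {s e : ℕ → ℕ} {u : ℕ → Bool} {C : ℕ → ℕ → Bool}
    (h1 : ∀ n, s n + 4 ≤ e n) (h2 : ∀ n, e n < s (n + 1))
    (hA : ∀ n N, e n ≤ N → gam (bE R) (N - e n) ≠ gam (bE R) (N - s n) →
      C n N = xor (gam (bE R) (N - s n)) (u n) ∧ C (n + 1) N = xor (gam (bE R) (N - e n)) (u n))
    (hB : ∀ n N, e n ≤ N → gam (bE R) (N - e n) = gam (bE R) (N - s n) → C (n + 1) N = C n N) :
    Cl R := by
  have mono : ∀ a b, a < b → e a < s b := by
    intro a b hab
    induction b, hab using Nat.le_induction with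
    | base => exact h2 a
    | succ b _ ih => have := h1 b; have := h2 b; omega
  have carry : ∀ N a b, a ≤ b → s b ≤ N →
      (∀ r, a ≤ r → r < b → gam (bE R) (N - e r) = gam (bE R) (N - s r)) → C b N = C a N := by
    intro N a b hab
    induction b, hab using Nat.le_induction with
    | base => intros; rfl
    | succ b hab ih =>
      intro hN h
      have := h1 b; have := h2 b
      rw [hB b N (by omega) (h b hab (by omega)), ih (by omega) fun r r1 r2 => h r r1 (by omega)]
  by_cases hO : {r | (e r + s r) % 2 = 1}.Infinite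
  · exfalso
    have nxt : ∀ p, ∃ r, p < r ∧ (e r + s r) % 2 = 1 ∧
        ∀ x, p < x → x < r → (e x + s x) % 2 = 0 := by
      intro p
      have hex : ∃ r, (e r + s r) % 2 = 1 ∧ p < r := hO.exists_gt p
      classical
      refine ⟨Nat.find hex, (Nat.find_spec hex).2, (Nat.find_spec hex).1, fun x x1 x2 => ?_⟩
      have := Nat.find_min hex x2
      omega
    obtain ⟨p, -, p1, -⟩ := nxt 0
    obtain ⟨r, r0, r1, r2⟩ := nxt p
    obtain ⟨r', t0, t1, t2⟩ := nxt r
    obtain ⟨P, hP, w⟩ := win (R := R) not_bad_zero (2 * e r' + 1)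
    have := h1 p; have := h1 r; have := h1 r'; have := mono p r r0; have := mono r r' t0
    have bg0 : ∀ y, y ≤ e r' → gam (bE R) (4 + 2 * P + s r + 2 * e r' - y) =
        decide ((s r + y) % 2 = 0) := by
      intro y hy
      rw [(w _ (by omega) (by omega)).2 (by omega), decide_eq_decide]; omega
    have bg1 : ∀ y, y ≤ e r' → y ≠ s r → y ≠ s r + 1 → gam (bE R) (4 + 2 * P + s r - y) =
        decide ((s r + y) % 2 = 0) := by
      intro y hy _ _
      rw [(w _ (by omega) (by omega)).2 (by omega), decide_eq_decide]; omega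
    have df : gam (bE R) (4 + 2 * P + s r - s r) = false := by
      rw [(w _ (by omega) (by omega)).1 (by omega)]; simp only [add_tsub_cancel_right, Nat.add_mul_mod_self_left, Nat.reduceMod, zero_ne_one, decide_false]
    have a1 := (hA p (4 + 2 * P + s r + 2 * e r') (by omega) (by
      rw [bg0 _ (by omega), bg0 _ (by omega), Ne, decide_eq_decide]; omega)).2
    have a2 := hA r (4 + 2 * P + s r + 2 * e r') (by omega) (by
      rw [bg0 _ (by omega), bg0 _ (by omega), Ne, decide_eq_decide]; omega)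
    have a3 := (hA r' (4 + 2 * P + s r + 2 * e r') (by omega) (by
      rw [bg0 _ (by omega), bg0 _ (by omega), Ne, decide_eq_decide]; omega)).1
    have a4 := carry (4 + 2 * P + s r + 2 * e r') (p + 1) r r0 (by omega) fun x x1 x2 => by
      have := r2 x x1 x2; have := h1 x; have := mono x r x2
      rw [bg0 _ (by omega), bg0 _ (by omega), decide_eq_decide]; omega
    have a5 := carry (4 + 2 * P + s r + 2 * e r') (r + 1) r' t0 (by omega) fun x x1 x2 => by
      have := t2 x x1 x2; have := h1 x; have := mono x r' x2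
      rw [bg0 _ (by omega), bg0 _ (by omega), decide_eq_decide]; omega
    have b1 := (hA p (4 + 2 * P + s r) (by omega) (by
      rw [bg1 _ (by omega) (by omega) (by omega), bg1 _ (by omega) (by omega) (by omega), Ne,
        decide_eq_decide]; omega)).2
    have b3 := (hA r' (4 + 2 * P + s r) (by omega) (by
      rw [bg1 _ (by omega) (by omega) (by omega), bg1 _ (by omega) (by omega) (by omega), Ne,
        decide_eq_decide]; omega)).1
    have b4 := carry (4 + 2 * P + s r) (p + 1) r' (by omega) (by omega) fun x x1 x2 => by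
      have := h1 x; have := mono x r' x2
      rcases lt_trichotomy x r with h | rfl | h
      · have := r2 x x1 h; have := mono x r h
        rw [bg1 _ (by omega) (by omega) (by omega), bg1 _ (by omega) (by omega) (by omega),
          decide_eq_decide]; omega
      · rw [bg1 _ (by omega) (by omega) (by omega), df]; simp; omega
      · have := t2 x h x2; have := mono r x h
        rw [bg1 _ (by omega) (by omega) (by omega), bg1 _ (by omega) (by omega) (by omega),
          decide_eq_decide]; omega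
    rw [bg0 _ (by omega)] at a1 a3
    rw [bg0 _ (by omega), bg0 _ (by omega), a4, a1, ← a5, a3,
      decide_eq_true (by omega : (s r + s r) % 2 = 0),
      decide_eq_false (by omega : ¬ (s r + e r) % 2 = 0)] at a2
    rw [bg1 _ (by omega) (by omega) (by omega)] at b1 b3
    rw [b1, b3] at b4
    rw [← b4] at a2
    obtain ⟨a6, a7⟩ := a2
    rw [a6] at a7
    revert a7; cases u r <;> simp
  · obtain ⟨n0, hn0⟩ := (Set.not_infinite.1 hO).bddAbove
    have ev : ∀ r, n0 < r → (e r + s r) % 2 = 0 := by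
      intro r hr
      by_contra h
      have : r ≤ n0 := hn0 (show (e r + s r) % 2 = 1 by omega)
      omega
    obtain ⟨a, b, hab⟩ := infinite_class (Set.Ioi_infinite n0) (fun r => decide (s r % 2 = 1)) u
    obtain ⟨v, v1, v2⟩ := sparse_seq hab fun _ => 0
    refine clique (x := fun k => s (v k) / 2) (f := fun m => s (v m) / 2)
      (fun k m h => ?_) fun k m h => ?_
    · have := mono _ _ (v2 k m h); have := h1 (v k); simp only [add_zero] at *; omega
    have hv : v k < v m := v2 k m h
    have := mono _ _ hv; have := h1 (v k); have := h1 (v m)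
    refine ⟨by omega, ?_⟩
    by_contra hr
    obtain ⟨a1, a2, a3⟩ := v1 k
    obtain ⟨b1, b2, b3⟩ := v1 m
    have e1 := decide_eq_decide.1 (a2.trans b2.symm)
    have := ev _ a1; have := ev _ b1
    obtain ⟨P, hP, w⟩ := win hr (e (v m))
    have c1 := (hA (v k) (4 + 2 * P + s (v m)) (by omega) (by
      rw [(w _ (by omega) (by omega)).2 (by omega), (w _ (by omega) (by omega)).1 (by omega), Ne,
        decide_eq_decide]; omega)).2
    have c2 := (hA (v m) (4 + 2 * P + s (v m)) (by omega) (by
      rw [(w _ (by omega) (by omega)).2 (by omega), (w _ (by omega) (by omega)).1 (by omega), Ne,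
        decide_eq_decide]; omega)).1
    have c3 := carry (4 + 2 * P + s (v m)) (v k + 1) (v m) hv (by omega) fun x x1 x2 => by
      have := h1 x; have := mono x _ x2; have := mono _ x x1
      have := ev x (lt_trans a1 x1)
      rw [(w _ (by omega) (by omega)).2 (by omega), (w _ (by omega) (by omega)).2 (by omega),
        decide_eq_decide]; omega
    rw [(w _ (by omega) (by omega)).2 (by omega), decide_eq_true (by omega)] at c1
    rw [(w _ (by omega) (by omega)).1 (by omega), decide_eq_false (by omega)] at c2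
    rw [c1, c2, a3, b3] at c3
    revert c3; cases b <;> simp

theorem finite_V_of_not_Cl (H : Hy q (gam (bE R))) (hno : ¬ Cl R) (c : ℕ → Bool)
    (P : Pure q (gam (bE R)) (V q c)) : (Ex q (V q c)).Finite := by
  have n := H.J.nm
  have hq := n.one_lt
  by_contra hinf
  have step : ∀ c : {c // Pure q (gam (bE R)) (V q c) ∧ ¬ (Ex q (V q c)).Finite},
      ∃ (b : {c // Pure q (gam (bE R)) (V q c) ∧ ¬ (Ex q (V q c)).Finite}) (i j : ℕ) (m : Bool),
        3 ≤ j ∧ ∀ k, (gam (bE R) k ≠ gam (bE R) (k + j + 1) →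
          xor (c.1 (k + j + 2 + i)) m = gam (bE R) (k + j + 1) ∧ b.1 k = gam (bE R) k) ∧
          (gam (bE R) k = gam (bE R) (k + j + 1) → b.1 k = xor (c.1 (k + j + 2 + i)) m) := by
    rintro ⟨c, P, hc⟩
    by_contra hcon
    refine hc (finite_V' n (fin_viol H hno P) (fin_viol H hno (P.V_ng hq)) (fun i h1 h2 => ?_)
      fun i h1 h2 => ?_)
    · obtain ⟨j, b, j0, -, j2, Pb, e, j3⟩ := viol H (P.V_sh hq i) (by simpa [sh] using h1) h2
      refine (Set.Finite.image _ ?_).subset (side_sub n e)
      by_contra hb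
      exact hcon ⟨⟨b, Pb, hb⟩, i, j, false, j0, fun k =>
        ⟨fun h => by simpa [sh] using j2 k h, fun h => by simpa [sh] using j3 k h⟩⟩
    · obtain ⟨j, b, j0, -, j2, Pb, e, j3⟩ :=
        viol H ((P.V_ng hq).V_sh hq i) (by simpa [sh] using h1) h2
      refine (Set.Finite.image _ ?_).subset (side_sub n e)
      by_contra hb
      exact hcon ⟨⟨b, Pb, hb⟩, i, j, true, j0, fun k =>
        ⟨fun h => by simpa [sh, ng] using j2 k h, fun h => by simpa [sh, ng] using j3 k h⟩⟩
  choose nb fi fj fm f0 f1 using step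
  let cs : ℕ → {c // Pure q (gam (bE R)) (V q c) ∧ ¬ (Ex q (V q c)).Finite} :=
    fun k => Nat.rec ⟨c, P, hinf⟩ (fun _ a => nb a) k
  let t : ℕ → ℕ := fun k => Nat.rec 0 (fun k a => a + fi (cs k) + fj (cs k) + 2) k
  let u : ℕ → Bool := fun k => Nat.rec false (fun k a => xor a (fm (cs k))) k
  have ht : ∀ k, t (k + 1) = t k + fi (cs k) + fj (cs k) + 2 := fun k => rfl
  have hu : ∀ k, u (k + 1) = xor (u k) (fm (cs k)) := fun k => rfl
  have hc : ∀ k, cs (k + 1) = nb (cs k) := fun k => rfl
  refine hno (chain_clique (s := fun k => t k + fi (cs k) + 1) (e := fun k => t (k + 1))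
    (u := fun k => u (k + 1)) (C := fun k N => xor ((cs k).1 (N - t k)) (u k))
    (fun k => by have := f0 (cs k); rw [ht]; omega) (fun k => by omega) ?_ ?_)
  · intro k N hN h
    obtain ⟨x, rfl⟩ : ∃ x, N = x + t (k + 1) := ⟨N - t (k + 1), by omega⟩
    have e1 : x + t (k + 1) - (t k + fi (cs k) + 1) = x + fj (cs k) + 1 := by rw [ht]; omega
    have e2 : x + t (k + 1) - t k = x + fj (cs k) + 2 + fi (cs k) := by rw [ht]; omega
    simp only [Nat.add_sub_cancel, e1, e2] at h ⊢
    obtain ⟨a1, a2⟩ := (f1 (cs k) x).1 h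
    rw [hc, a2, ← a1, hu]
    refine ⟨?_, rfl⟩
    cases (cs k).1 (x + fj (cs k) + 2 + fi (cs k)) <;> cases u k <;> cases fm (cs k) <;> rfl
  · intro k N hN h
    obtain ⟨x, rfl⟩ : ∃ x, N = x + t (k + 1) := ⟨N - t (k + 1), by omega⟩
    have e1 : x + t (k + 1) - (t k + fi (cs k) + 1) = x + fj (cs k) + 1 := by rw [ht]; omega
    have e2 : x + t (k + 1) - t k = x + fj (cs k) + 2 + fi (cs k) := by rw [ht]; omega
    simp only [Nat.add_sub_cancel, e1, e2] at h ⊢
    rw [hc, (f1 (cs k) x).2 h, hu]
    cases (cs k).1 (x + fj (cs k) + 2 + fi (cs k)) <;> cases u k <;> cases fm (cs k) <;> rfl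

theorem Cl_of_mem (H : Hy q (gam (bE R))) (ht : Transcendental ℤ q) (hB : q ∈ BAleph0) :
    Cl R := by
  by_contra hno
  obtain ⟨-, x, -, hx⟩ := hB
  rw [expansions_eq H.J.nm.one_lt] at hx
  have h1 : (Ex q x).Countable := Cardinal.le_aleph0_iff_set_countable.1 hx.le
  have h2 := finite_of_countable H (finite_V_of_not_Cl H hno) ht h1
  exact absurd (Cardinal.lt_aleph0_iff_set_finite.2 h2) (by rw [hx]; exact lt_irrefl _)

end Pool.Agent.MP_b1d139_an

/-! An infinite clique gives a point with countably infinitely many expansions. -/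

namespace Pool.Agent.MP_b1d139_an

variable {R : ℕ → ℕ → Prop} {q : ℝ}

theorem countable_of_branch (hq : 1 < q) {c : ℕ → Bool}
    (h2 : ∀ n, val q (sh n c) ∈ Sw q → (Ex q (q * val q (sh n c) - dg (!c n))).Countable) :
    (Ex q (val q c)).Countable := by
  have : Ex q (val q c) ⊆ {c} ∪ ⋃ n ∈ {n | val q (sh n c) ∈ Sw q},
      cat (n + 1) (fun i => if i < n then c i else !c n) ''
        Ex q (q * val q (sh n c) - dg (!c n)) := by
    intro d hd
    by_cases hne : d = c
    · exact Or.inl hne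
    · obtain ⟨n, a1, a2⟩ := first_diff hne
      obtain ⟨b1, b2⟩ := branch hq hd a1 a2
      refine Or.inr (Set.mem_biUnion (x := n) b1 ⟨sh (n + 1) d, b2, cat_sh fun i hi => ?_⟩)
      by_cases hin : i < n
      · simp [hin, a2 i hin]
      · obtain rfl : i = n := by omega
        simp only [lt_irrefl, if_false]
        revert a1; cases d i <;> cases c i <;> simp
  exact ((Set.countable_singleton c).union
    ((Set.to_countable _).biUnion fun n hn => (h2 n hn).image _)).mono this

theorem V_lin (n : Nm q) {b x y z : ℕ → Bool}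
    (h : ∀ t, bz (b t) = bz (x t) + bz (y t) - bz (z t)) :
    V q b = V q x + V q y - V q z := by
  have hq := n.one_lt
  have key : ∀ k, (q ^ 4) ^ k * (V q b - (V q x + V q y - V q z)) =
      V q (sh k b) - (V q (sh k x) + V q (sh k y) - V q (sh k z)) := by
    intro k
    induction k with
    | zero => simp
    | succ k ih =>
      have e : dg (b k) = dg (x k) + dg (y k) - dg (z k) := by
        rw [← bz_cast, ← bz_cast, ← bz_cast, ← bz_cast, h k]; push_cast; rfl
      rw [pow_succ', mul_assoc, ih]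
      linear_combination V_step hq b k - V_step hq x k - V_step hq y k + V_step hq z k +
        KK q * e
  have := eq_zero_of_pow (C := 2) (by linarith [n.a4] : 1 < q ^ 4) fun N => ⟨N, le_rfl, by
    rw [key, abs_le]
    constructor <;> linarith [V_ge n (sh N b), V_le n (sh N b), V_ge n (sh N x), V_le n (sh N x),
      V_ge n (sh N y), V_le n (sh N y), V_ge n (sh N z), V_le n (sh N z), n.ar, n.bM]⟩
  linarith

theorem side_val {g c : ℕ → Bool} (hq : 1 < q) (hF : val q (al g) = 1) (hc : c 0 = false) {j : ℕ}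
    (j1 : c (j + 1) = true) (j2 : g j = false) (j3 : ∀ i < j, c (i + 1) = g i) :
    q ^ (4 * j + 7) * (q * V q c - 1) =
      1 + (V q g + V q (sh (j + 2) c) - V q (sh (j + 1) g)) := by
  have e0 := viol_eq hq hF hc
  have a1 := V_agree (a := sh 1 c) hq j3
  have a2 := V_step hq (sh 1 c) j
  have a3 := V_step hq g j
  have a4 := cube_eq hq hF
  rw [show sh 1 c j = true from j1, dg_true, sh_sh (j + 1)] at a2
  rw [j2, dg_false] at a3
  unfold KK AA at *
  linear_combination q ^ (4 * j + 4) * e0 + q ^ 4 * a1 + a2 - a3 + a4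

open Classical in
/-- Blocks `11` at the places in `W`, elsewhere blocks `10` or `01` as `Y` holds or not. -/
noncomputable def blk (W Y : ℕ → Prop) : ℕ → Bool :=
  fun i => if W (i / 2) then true else xor (decide (Y (i / 2))) (decide (i % 2 = 1))

theorem blk_W {W Y : ℕ → Prop} {i : ℕ} (h : W (i / 2)) : blk W Y i = true := by simp [blk, h]

theorem blk_Y {W Y : ℕ → Prop} {i : ℕ} (h : ¬ W (i / 2)) (h' : Y (i / 2)) :
    blk W Y i = decide (i % 2 = 0) := by
  rcases Nat.mod_two_eq_zero_or_one i with h1 | h1 <;> simp [blk, h, h', h1]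

theorem blk_N {W Y : ℕ → Prop} {i : ℕ} (h : ¬ W (i / 2)) (h' : ¬ Y (i / 2)) :
    blk W Y i = decide (i % 2 = 1) := by simp [blk, h, h']

theorem blk_triple {W Y : ℕ → Prop} {p : ℕ} (h1 : blk W Y p = blk W Y (p + 1))
    (h2 : blk W Y (p + 1) = blk W Y (p + 2)) : W ((p + 1) / 2) := by
  by_contra h
  by_cases hY : Y ((p + 1) / 2)
  · rcases Nat.mod_two_eq_zero_or_one p with h3 | h3
    · rw [blk_Y h hY, blk_Y (by rwa [show p / 2 = (p + 1) / 2 by omega])
        (by rwa [show p / 2 = (p + 1) / 2 by omega]), decide_eq_decide] at h1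
      omega
    · rw [blk_Y h hY, blk_Y (by rwa [show (p + 2) / 2 = (p + 1) / 2 by omega])
        (by rwa [show (p + 2) / 2 = (p + 1) / 2 by omega]), decide_eq_decide] at h2
      omega
  · rcases Nat.mod_two_eq_zero_or_one p with h3 | h3
    · rw [blk_N h hY, blk_N (by rwa [show p / 2 = (p + 1) / 2 by omega])
        (by rwa [show p / 2 = (p + 1) / 2 by omega]), decide_eq_decide] at h1
      omega
    · rw [blk_N h hY, blk_N (by rwa [show (p + 2) / 2 = (p + 1) / 2 by omega])
        (by rwa [show (p + 2) / 2 = (p + 1) / 2 by omega]), decide_eq_decide] at h2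
      omega

theorem gam_E {n : ℕ} (h3 : 3 ≤ n) (h : InE R ((n - 3) / 2)) :
    gam (bE R) n = decide (n % 2 = 1) := by
  simp only [gam, bE]
  rw [if_neg (by omega)]
  rcases Nat.mod_two_eq_zero_or_one n with h4 | h4
  · simp [h, h4, show (n - 3) % 2 = 1 by omega]
  · simp [h, h4, show (n - 3) % 2 = 0 by omega]

theorem gam_N {n : ℕ} (h3 : 3 ≤ n) (h : ¬ InE R ((n - 3) / 2)) :
    gam (bE R) n = decide (n % 2 = 0) := by
  simp only [gam, bE]
  rw [if_neg (by omega)]
  rcases Nat.mod_two_eq_zero_or_one n with h4 | h4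
  · simp [h, h4, show (n - 3) % 2 = 1 by omega]
  · simp [h, h4, show (n - 3) % 2 = 0 by omega]

theorem blk_congr {W Y W' Y' : ℕ → Prop} {i : ℕ} (h : W (i / 2) ↔ W' (i / 2))
    (h' : Y (i / 2) ↔ Y' (i / 2)) : blk W Y i = blk W' Y' i := by
  unfold blk; rw [propext h, propext h']

theorem gsm (R : ℕ → ℕ → Prop) {t : ℕ} (t1 : 3 ≤ t) (t2 : t ≤ 16) : gam (bE R) t =
    if 7 ≤ t ∧ t ≤ 14 then decide (t % 2 = 1) else decide (t % 2 = 0) := by
  split_ifs with h
  · exact gam_E t1 (by rw [InE_small (by omega)]; omega)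
  · exact gam_N t1 (by rw [InE_small (by omega)]; omega)

structure Sq (R : ℕ → ℕ → Prop) (a : ℕ → ℕ) : Prop where
  a0 : ∀ k, 256 ≤ a k
  a1 : ∀ k m, k < m → 16 * a k ≤ a m
  aD : ∀ k m, k < m → InD R (a m - a k)
  aE : ∀ k m, k < m → ∀ o, a k + o ≤ a m + 20 → a m ≤ a k + o + 20 →
    (InE R o ↔ a k + o = a m + 2)

def XX (R : ℕ → ℕ → Prop) (a : ℕ → ℕ) (n : ℕ) : Prop := ∃ k D, (InE R D ∨ D = 6) ∧ n = a k + D

def WW (a : ℕ → ℕ) (n : ℕ) : Prop := ∃ m, n + 1 = a m

def YY (R : ℕ → ℕ → Prop) (a : ℕ → ℕ) (k n : ℕ) : Prop :=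
  (a k + 8 ≤ n ∧ InE R (n - a k - 8) ∧ ¬ InE R (n - a k)) ∨
    (XX R a n ∧ ¬ (a k + 8 ≤ n ∧ InE R (n - a k) ∧ ¬ InE R (n - a k - 8)))

noncomputable def cc (R : ℕ → ℕ → Prop) (a : ℕ → ℕ) : ℕ → Bool := blk (WW a) (XX R a)

noncomputable def bb (R : ℕ → ℕ → Prop) (a : ℕ → ℕ) (k : ℕ) : ℕ → Bool :=
  blk (fun n => WW a n ∨ n = a k + 7) (YY R a k)

variable {a : ℕ → ℕ}

theorem Sq.tri (S : Sq R a) (k m : ℕ) :
    (k < m ∧ 16 * a k ≤ a m) ∨ k = m ∨ (m < k ∧ 16 * a m ≤ a k) := by
  rcases lt_trichotomy k m with h | h | h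
  · exact Or.inl ⟨h, S.a1 _ _ h⟩
  · exact Or.inr (Or.inl h)
  · exact Or.inr (Or.inr ⟨h, S.a1 _ _ h⟩)

theorem Sq.hX (S : Sq R a) (m : ℕ) {n : ℕ} (n1 : a m ≤ n + 20) (n2 : n ≤ a m + 20) :
    XX R a n ↔ a m + 2 ≤ n ∧ n ≤ a m + 6 := by
  constructor
  · rintro ⟨k, D, hD, rfl⟩
    have := S.a0 m; have := S.a0 k
    rcases S.tri k m with ⟨h, h'⟩ | rfl | h
    · have := (S.aE k m h D n2 n1).1 (hD.resolve_right (by omega))
      omega
    · rcases hD with hD | hD
      · have := (InE_small (by omega)).1 hD; omega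
      · omega
    · omega
  · intro h
    refine ⟨m, n - a m, ?_, by omega⟩
    by_cases h6 : n - a m = 6
    · exact Or.inr h6
    · exact Or.inl (Or.inl (by omega))

theorem Sq.hW (S : Sq R a) (m : ℕ) {n : ℕ} (n1 : a m ≤ n + 20) (n2 : n ≤ a m + 20) :
    WW a n ↔ n + 1 = a m := by
  refine ⟨?_, fun h => ⟨m, h⟩⟩
  rintro ⟨k, hk⟩
  have := S.a0 m; have := S.a0 k
  rcases S.tri k m with h | rfl | h <;> omega

theorem Sq.cN (S : Sq R a) (m : ℕ) {i : ℕ} (h1 : a m ≤ i / 2 + 20) (h2 : i / 2 ≤ a m + 20)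
    (h3 : i / 2 + 1 ≠ a m) (h4 : ¬ (a m + 2 ≤ i / 2 ∧ i / 2 ≤ a m + 6)) :
    cc R a i = decide (i % 2 = 1) :=
  blk_N (by rwa [S.hW m h1 h2]) (by rwa [S.hX m h1 h2])

theorem Sq.cY (S : Sq R a) (m : ℕ) {i : ℕ} (h1 : a m + 2 ≤ i / 2) (h2 : i / 2 ≤ a m + 6) :
    cc R a i = decide (i % 2 = 0) :=
  blk_Y (by rw [S.hW m (by omega) (by omega)]; omega) (by rw [S.hX m (by omega) (by omega)]; omega)

theorem Sq.noW (S : Sq R a) (k : ℕ) {o : ℕ} (hE : InE R o ∨ InE R (o + 8)) :
    ¬ WW a (a k + 8 + o) := by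
  rintro ⟨m, hm⟩
  rcases S.tri k m with ⟨hkm, -⟩ | rfl | h
  · rcases hE with hE | hE
    · have := (S.aE k m hkm o (by omega) (by omega)).1 hE; omega
    · have := (S.aE k m hkm (o + 8) (by omega) (by omega)).1 hE; omega
  · omega
  · omega

theorem Sq.noX (S : Sq R a) (k : ℕ) {o : ℕ} (h1 : InE R o) (h2 : ¬ InE R (o + 8)) :
    ¬ XX R a (a k + 8 + o) := by
  rintro ⟨k', D, hD, e⟩
  rcases S.tri k k' with ⟨h, h'⟩ | rfl | ⟨h, h'⟩
  · exact no_bad_pair (S.aD k k' h) (Or.inl h1) hD (by omega)
  · rcases hD with hD | hD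
    · exact h2 (by rwa [show o + 8 = D by omega])
    · omega
  · exact no_bad_pair (S.aD k' k h) hD (Or.inl h1) (by omega)

theorem YY_at (k o : ℕ) : YY R a k (a k + 8 + o) ↔ (InE R o ∧ ¬ InE R (o + 8)) ∨
    (XX R a (a k + 8 + o) ∧ ¬ (InE R (o + 8) ∧ ¬ InE R o)) := by
  rw [YY, show a k + 8 + o - a k = o + 8 by omega, Nat.add_sub_cancel]
  simp only [Nat.le_add_right, true_and]

theorem Sq.lin (S : Sq R a) (st : ∀ i < 3, gam (bE R) i = true) (k t : ℕ) :
    bz (sh (2 * a k + 13) (bb R a k) t) = bz (gam (bE R) t) +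
      bz (sh (15 + 2) (sh (2 * a k - 4) (cc R a)) t) - bz (sh (15 + 1) (gam (bE R)) t) := by
  have := S.a0 k
  simp only [sh]
  rw [show t + (15 + 2) + (2 * a k - 4) = t + (2 * a k + 13) by omega]
  rcases Nat.lt_or_ge t 3 with h3 | h3
  · rw [st t h3, gam_N (by omega) (by rw [InE_small (by omega)]; omega)]
    rcases Nat.eq_zero_or_pos t with rfl | h0
    · rw [S.cY k (by omega) (by omega), bb, blk_Y (by rw [S.hW k (by omega) (by omega)]; omega)
        (Or.inr ⟨by rw [S.hX k (by omega) (by omega)]; omega, by omega⟩)]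
      simp [bz]
    · rw [S.cN k (by omega) (by omega) (by omega) (by omega), bb, blk_W (Or.inr (by omega)),
        show decide ((t + (2 * a k + 13)) % 2 = 1) = decide ((t + (15 + 1)) % 2 = 0) by
          rw [decide_eq_decide]; omega]
      simp [bz]
  obtain ⟨o, r, r1, rfl⟩ : ∃ o r, r ≤ 1 ∧ t = 3 + 2 * o + r :=
    ⟨(t - 3) / 2, (t - 3) % 2, by omega, by omega⟩
  have i1 : (3 + 2 * o + r + (2 * a k + 13)) / 2 = a k + 8 + o := by omega
  have i2 : (3 + 2 * o + r - 3) / 2 = o := by omega
  have i3 : (3 + 2 * o + r + (15 + 1) - 3) / 2 = o + 8 := by omega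
  have i4 : ¬ a k + 8 + o = a k + 7 := by omega
  have same : (InE R o ↔ InE R (o + 8)) → bb R a k (3 + 2 * o + r + (2 * a k + 13)) =
      cc R a (3 + 2 * o + r + (2 * a k + 13)) := fun h =>
    blk_congr (by rw [i1]; exact or_iff_left i4) (by rw [i1, YY_at, h]; simp)
  by_cases h1 : InE R o <;> by_cases h2 : InE R (o + 8)
  · rw [same (iff_of_true h1 h2), gam_E (by omega) (by rwa [i2]), gam_E (by omega) (by rwa [i3]),
      show decide ((3 + 2 * o + r + (15 + 1)) % 2 = 1) = decide ((3 + 2 * o + r) % 2 = 1) by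
        rw [decide_eq_decide]; omega]
    ring
  · rw [gam_E (by omega) (by rwa [i2]), gam_N (by omega) (by rwa [i3]), bb,
      blk_Y (by rw [i1]; exact fun h => h.elim (S.noW k (Or.inl h1)) i4)
        (by rw [i1, YY_at]; exact Or.inl ⟨h1, h2⟩), cc,
      blk_N (by rw [i1]; exact S.noW k (Or.inl h1)) (by rw [i1]; exact S.noX k h1 h2)]
    interval_cases r <;> simp only [bz, add_zero, Nat.add_mod, Nat.reduceMod, Nat.mul_mod_right, Nat.mod_succ, zero_add, Nat.reduceAdd, Nat.mod_self, decide_true, ↓ reduceIte, zero_ne_one, decide_false, Bool.false_eq_true, one_ne_zero, sub_zero, Nat.zero_mod, sub_self]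
  · rw [gam_N (by omega) (by rwa [i2]), gam_E (by omega) (by rwa [i3]), bb,
      blk_N (by rw [i1]; exact fun h => h.elim (S.noW k (Or.inr h2)) i4)
        (by rw [i1, YY_at]; simp [h1, h2]), cc,
      blk_Y (by rw [i1]; exact S.noW k (Or.inr h2))
        (by rw [i1]; exact ⟨k, o + 8, Or.inl h2, by omega⟩)]
    interval_cases r <;> simp only [bz, add_zero, Nat.add_mod, Nat.reduceMod, Nat.mul_mod_right, Nat.mod_succ, zero_add, Nat.reduceAdd, Nat.mod_self, zero_ne_one, decide_false, Bool.false_eq_true, ↓ reduceIte, one_ne_zero, decide_true, sub_self, Nat.zero_mod, sub_zero]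
  · rw [same (iff_of_false h1 h2), gam_N (by omega) (by rwa [i2]), gam_N (by omega) (by rwa [i3]),
      show decide ((3 + 2 * o + r + (15 + 1)) % 2 = 0) = decide ((3 + 2 * o + r) % 2 = 0) by
        rw [decide_eq_decide]; omega]
    ring

theorem Sq.c0 (S : Sq R a) (k : ℕ) : cc R a (2 * a k - 4) = false := by
  have := S.a0 k
  rw [S.cN k (by omega) (by omega) (by omega) (by omega)]; simp; omega

theorem Sq.sv (S : Sq R a) (H : Hy q (gam (bE R))) (k : ℕ) :
    q ^ (4 * 15 + 7) * (q * V q (sh (2 * a k - 4) (cc R a)) - 1) =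
      1 + V q (sh (2 * a k + 13) (bb R a k)) := by
  have := S.a0 k
  rw [V_lin H.J.nm (S.lin H.st k)]
  refine side_val H.J.nm.one_lt H.F (by simpa only [sh, zero_add] using S.c0 k) ?_
    (by rw [gsm R (by omega) (by omega)]; rfl) fun t ht => ?_
  · simp only [sh]; rw [S.cY k (by omega) (by omega)]; simp; omega
  · simp only [sh]
    rcases Nat.lt_or_ge t 3 with h3 | h3
    · rw [H.st t h3]
      rcases Nat.eq_zero_or_pos t with rfl | h0
      · rw [S.cN k (by omega) (by omega) (by omega) (by omega)]; simp; omega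
      · exact blk_W ⟨k, by omega⟩
    · rw [gsm R h3 (by omega)]
      split_ifs with h
      · rw [S.cY k (by omega) (by omega), decide_eq_decide]; omega
      · rw [S.cN k (by omega) (by omega) (by omega) (by omega), decide_eq_decide]; omega

theorem Sq.bN (S : Sq R a) {k m s : ℕ} (hkm : k < m) (s1 : a m ≤ s / 2 + 2)
    (s2 : s / 2 ≤ a m + 2) (s3 : s / 2 + 1 ≠ a m) : bb R a k s = decide (s % 2 = 1) := by
  have := S.a0 k
  have := S.a1 k m hkm
  refine blk_N ?_ ?_
  · rw [S.hW m (by omega) (by omega)]; omega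
  · rw [YY, S.hX m (by omega) (by omega), S.aE k m hkm _ (by omega) (by omega),
      S.aE k m hkm _ (by omega) (by omega)]
    omega

theorem Sq.bU (S : Sq R a) (H : Hy q (gam (bE R))) (k m : ℕ) :
    val q (sh m (psi (sh (2 * a k + 13) (bb R a k)))) ∉ Sw q := by
  intro hm
  have n := H.J.nm
  obtain ⟨i, -, hi⟩ := block_of_Sw n hm
  have bv := block_viol n H.F H.st hi
  simp only [sh, zero_add] at bv
  obtain ⟨p, hp⟩ : ∃ p, p = i + (2 * a k + 13) := ⟨_, rfl⟩
  have b0 := bv 0 (by omega)
  have b1 := bv 1 (by omega)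
  have b2 := bv 2 (by omega)
  rw [← hp] at b0 b1 b2
  rw [show 0 + 1 + i + (2 * a k + 13) = p + 1 by omega] at b0
  rw [show 1 + 1 + i + (2 * a k + 13) = p + 1 + 1 by omega] at b1
  rw [show 2 + 1 + i + (2 * a k + 13) = p + 1 + 2 by omega] at b2
  have tr := blk_triple (b0.trans b1.symm) (b1.trans b2.symm)
  have bW : bb R a k (p + 1 + 1) = true := blk_W tr
  have := S.a0 k
  rcases tr with ⟨m, hm⟩ | tr
  · have hkm : k < m := by rcases S.tri k m with h | rfl | h <;> omega
    have := S.a1 k m hkm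
    have hp2 : p = 2 * a m - 4 := by
      by_contra h
      rw [← b1, bW, S.bN hkm (by omega) (by omega) (by omega)] at b2
      simp at b2; omega
    have l1 := viol_le n.one_lt H.F (c := sh i (sh (2 * a k + 13) (bb R a k))) (by
      simp only [sh, zero_add]
      rw [← hp, S.bN hkm (by omega) (by omega) (by omega)]; simp; omega) hi
    refine absurd l1 (not_le.2 (V_lt n (j := 7) (fun t ht => ?_)
      (by rw [gsm R (by omega) (by omega)]; rfl) ?_))
    · simp only [sh]
      rcases Nat.lt_or_ge t 3 with h3 | h3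
      · rw [H.st t h3]
        rcases Nat.eq_zero_or_pos t with rfl | h0
        · rw [S.bN hkm (by omega) (by omega) (by omega)]; simp; omega
        · exact (blk_W (Or.inl ⟨m, by omega⟩)).symm
      · rw [gsm R h3 (by omega), if_neg (by omega), S.bN hkm (by omega) (by omega) (by omega),
          decide_eq_decide]; omega
    · simp only [sh]
      rw [S.bN hkm (by omega) (by omega) (by omega)]; simp; omega
  · rw [← b1, bW, bb, blk_N (by rw [S.hW k (by omega) (by omega)]; omega) (by
      rw [YY, S.hX k (by omega) (by omega), InE_small (by omega), InE_small (by omega)]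
      omega)] at b2
    simp at b2; omega

theorem Sq.mem (S : Sq R a) (H : Hy q (gam (bE R))) : q ∈ BAleph0 := by
  have n := H.J.nm
  have hq := n.one_lt
  have e4 : ∀ i, psi (cc R a) (4 * i) = cc R a i := fun i => by simp [psi]
  refine ⟨⟨hq, by linarith [n.b1]⟩, V q (cc R a), ⟨by linarith only [V_ge n (cc R a), n.ar],
    by have := V_le n (cc R a); have := n.ar; unfold MM at *; linarith⟩, ?_⟩
  rw [expansions_eq hq]
  have hcount : (Ex q (V q (cc R a))).Countable := by
    refine countable_of_branch hq fun m hm => ?_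
    obtain ⟨i, rfl, hi⟩ := block_of_Sw n hm
    have bv := block_viol n H.F H.st hi
    simp only [sh, zero_add] at bv
    have b0 := bv 0 (by omega)
    have b1 := bv 1 (by omega)
    have b2 := bv 2 (by omega)
    rw [show 0 + 1 + i = i + 1 by omega] at b0
    rw [show 1 + 1 + i = i + 1 + 1 by omega] at b1
    rw [show 2 + 1 + i = i + 1 + 2 by omega] at b2
    obtain ⟨k, hk⟩ := blk_triple (b0.trans b1.symm) (b1.trans b2.symm)
    have := S.a0 k
    obtain rfl : i = 2 * a k - 4 := by
      by_contra h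
      rw [← b1, show cc R a (i + 1 + 1) = true from blk_W ⟨k, hk⟩,
        S.cN k (by omega) (by omega) (by omega) (by omega)] at b2
      simp at b2; omega
    rw [e4, S.c0, sh_psi]
    refine (Set.Countable.image ?_ _).mono (side_sub n (S.sv H k))
    exact (Set.countable_singleton (psi _)).mono fun d hd => unique_of_no_branch hq hd (S.bU H k)
  have hinf : (Ex q (V q (cc R a))).Infinite := by
    let e : ℕ → ℕ → Bool := fun k => cat (4 * (2 * a k - 4) + 1)
      (fun i => if i < 4 * (2 * a k - 4) then psi (cc R a) i else true)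
      (cat (4 * 15 + 7) (zw 15) (psi (sh (2 * a k + 13) (bb R a k))))
    refine Set.infinite_of_injective_forall_mem (f := e) (fun s t hst => ?_) fun k => ?_
    · by_contra hne
      wlog hlt : s < t generalizing s t
      · exact this t s hst.symm (Ne.symm hne) (by omega)
      have := S.a1 s t hlt
      have := S.a0 s
      have h := congrFun hst (4 * (2 * a s - 4))
      simp only [e] at h
      rw [cat_lt _ _ (by omega), cat_lt _ _ (by omega), if_neg (by omega), if_pos (by omega), e4,
        S.c0] at h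
      cases h
    · refine val_cat hq (val_cat hq ?_)
      rw [T_zw, T, T_congr (w' := psi (cc R a)) _ (fun i hi => if_pos hi), if_neg (lt_irrefl _),
        T_V hq, dg_true, S.sv H]
      simp [V]
  have := hcount.to_subtype
  have := hinf.to_subtype
  exact Cardinal.mk_eq_aleph0 _

theorem mem_of_clique (H : Hy q (gam (bE R))) {v : ℕ → ℕ}
    (hv : ∀ k m, k < m → v k < v m ∧ R (v k) (v m)) : q ∈ BAleph0 := by
  have a1 : ∀ k m, k < m → 16 * FF (v k) ≤ FF (v m) := fun k m h => FF_lt (hv k m h).1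
  have aD : ∀ k m, k < m → InD R (FF (v m) - FF (v k)) := fun k m h =>
    ⟨v k, v m, (hv k m h).1, (hv k m h).2, by have := a1 k m h; omega⟩
  refine Sq.mem (a := fun k => FF (v k)) ⟨fun k => by have := FF_ge (v k); omega, a1, aD, ?_⟩ H
  intro k m h o o1 o2
  have := a1 k m h
  refine ⟨fun hE => ?_, fun hE => Or.inr (Or.inl ⟨_, aD k m h, by omega⟩)⟩
  have := (near_diff (d := FF (v m) - FF (v k)) (hv k m h).1 (by omega) hE (by omega)
    (by omega)).1
  omega

end Pool.Agent.MP_b1d139_an

/-! A description of the set of bases as the projection of a Borel set. -/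

namespace Pool.Agent.MP_b1d139_an

variable {q y : ℝ}

theorem orbit (hq : 1 < q) {G : Set ℝ} (hG : G ⊆ Set.Icc 0 (MM q))
    (step : ∀ y ∈ G, ∃ b, q * y - dg b ∈ G) (hy : y ∈ G) :
    ∃ c, val q c = y ∧ ∀ n, T q c y n ∈ G := by
  choose! f hf using step
  let o : ℕ → ℝ := fun k => Nat.rec y (fun _ v => q * v - dg (f v)) k
  have ho : ∀ k, T q (fun k => f (o k)) y k = o k := by
    intro k
    induction k with
    | zero => rfl
    | succ k ih => rw [T, ih]
  have hb : ∀ k, o k ∈ G := by
    intro k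
    induction k with
    | zero => exact hy
    | succ k ih => exact hf _ ih
  exact ⟨_, val_eq_of_bdd hq fun N => ⟨N, le_rfl, by rw [ho]; exact hG (hb N)⟩,
    fun n => by rw [ho]; exact hb n⟩

theorem exists_val (hq : q ∈ Set.Ioo (1 : ℝ) 2) (hy : y ∈ Set.Icc 0 (MM q)) :
    ∃ c, val q c = y := by
  refine (orbit hq.1 subset_rfl (fun v hv => ?_) hy).imp fun c h => h.1
  have e := MM_eq hq.1
  have p := MM_pos hq.1
  by_cases h : 1 ≤ q * v
  · exact ⟨true, by rw [dg_true]; linarith, by rw [dg_true]; nlinarith only [hv.2, e, p]⟩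
  · exact ⟨false, by rw [dg_false]; nlinarith only [hv.1, e, p], by rw [dg_false]; nlinarith [hq.2]⟩

def chi (s : Finset ℕ) : ℕ → Bool := fun i => decide (i ∈ s)

def Many (q y : ℝ) : Prop := ∀ N : ℕ, ∃ (L : ℕ) (W : Fin N → Finset ℕ),
  (∀ k k', k ≠ k' → ∃ i < L, chi (W k) i ≠ chi (W k') i) ∧
    ∀ k, T q (chi (W k)) y L ∈ Set.Icc 0 (MM q)

theorem many_iff (hq : q ∈ Set.Ioo (1 : ℝ) 2) : Many q y ↔ (Ex q y).Infinite := by
  constructor
  · intro h hfin
    have := hfin.to_subtype
    obtain ⟨L, W, h1, h2⟩ := h (Nat.card (Ex q y) + 1)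
    choose d hd using fun k => exists_val hq (h2 k)
    have := Nat.card_le_card_of_injective
      (fun k => (⟨cat L (chi (W k)) (d k), val_cat hq.1 (hd k)⟩ : Ex q y)) fun k k' e => by
        by_contra hne
        obtain ⟨i, hi, h3⟩ := h1 k k' hne
        have := congrFun (congrArg Subtype.val e) i
        simp only [cat_lt _ _ hi] at this
        exact h3 this
    simp only [Nat.card_coe_set_eq, Nat.card_eq_fintype_card, Fintype.card_fin, add_le_iff_nonpos_right, nonpos_iff_eq_zero, one_ne_zero] at this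
  · intro h N
    let e := h.natEmbedding
    have : ∀ p : Fin N × Fin N, ∃ i, p.1 ≠ p.2 → (e p.1).1 i ≠ (e p.2).1 i := by
      intro p
      by_cases hp : p.1 = p.2
      · exact ⟨0, fun h => absurd hp h⟩
      · obtain ⟨i, hi, -⟩ := first_diff (c := (e p.1).1) (d := (e p.2).1) fun h' =>
          hp (Fin.ext (e.injective (Subtype.ext h')))
        exact ⟨i, fun _ => hi⟩
    choose I hI using this
    obtain ⟨L, hL⟩ := (Set.finite_range I).bddAbove
    have hc : ∀ k : Fin N, ∀ i < L + 1,
        chi ((Finset.range (L + 1)).filter fun j => (e k).1 j = true) i = (e k).1 i := by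
      intro k i hi
      simp only [chi, Finset.mem_filter, Finset.mem_range, Order.lt_add_one_iff, Nat.lt_succ_iff.1 hi, true_and, Bool.decide_eq_true]
    refine ⟨L + 1, fun k => (Finset.range (L + 1)).filter fun j => (e k).1 j = true,
      fun k k' hk => ?_, fun k => ?_⟩
    · have hi : I (k, k') < L + 1 := Nat.lt_succ_of_le (hL ⟨_, rfl⟩)
      exact ⟨_, hi, by rw [hc _ _ hi, hc _ _ hi]; exact hI (k, k') hk⟩
    · rw [T_congr _ (hc k), ← val_sh_of_agree hq.1 (e k).2 fun _ _ => rfl]
      exact ⟨val_nonneg hq.1 _, val_le hq.1 _⟩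

def Wit (q : ℝ) (w : ℝ × (ℕ → Bool)) : Prop :=
  q ∈ Set.Ioo (1 : ℝ) 2 ∧ (∀ n, T q w.2 w.1 n ∈ Set.Icc 0 (MM q)) ∧ Many q w.1 ∧
    ∀ n, ¬ Many q (q * T q w.2 w.1 n - dg (!w.2 n))

theorem mem_iff_wit : q ∈ BAleph0 ↔ ∃ w, Wit q w := by
  constructor
  · rintro ⟨hq, x, -, hx⟩
    rw [expansions_eq hq.1] at hx
    have h1 : (Ex q x).Countable := Cardinal.le_aleph0_iff_set_countable.1 hx.le
    have h2 : (Ex q x).Infinite := fun h =>
      absurd (Cardinal.lt_aleph0_iff_set_finite.2 h) (by rw [hx]; exact lt_irrefl _)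
    by_contra hno
    have hG : {y | (Ex q y).Infinite} ⊆ Set.Icc 0 (MM q) := fun y hy => by
      obtain ⟨c, rfl⟩ := Set.Infinite.nonempty hy
      exact ⟨val_nonneg hq.1 _, val_le hq.1 _⟩
    refine uncount hq.1 hG (fun y hy => ?_) h2 h1
    obtain ⟨c, -, hc⟩ := orbit hq.1 hG (fun v hv => by
      by_contra hb
      push Not at hb
      refine hv ((Set.finite_iUnion fun b => (Set.not_infinite.1 (hb b)).image
        (cat 1 fun _ => b)).subset fun d hd => Set.mem_iUnion.2 ⟨d 0, sh 1 d, ?_, ?_⟩)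
      · have := val_succ hq.1 d
        rw [show val q d = v from hd] at this
        change val q (sh 1 d) = _
        linarith only [this]
      · exact cat_sh fun i hi => by rw [show i = 0 by omega]) hy
    have : ∃ n, Many q (q * T q c y n - dg (!c n)) := by
      by_contra h
      exact hno ⟨(y, c), hq, fun n => hG (hc n), (many_iff hq).2 hy, fun n h' => h ⟨n, h'⟩⟩
    obtain ⟨n, hn⟩ := this
    refine ⟨c, fun i => if i < n then c i else !c n, n + 1, n + 1, n, by omega, by omega,
      by simp, hc _, ?_⟩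
    rw [T, T_congr (w' := c) _ (fun i hi => if_pos hi), if_neg (lt_irrefl _)]
    exact (many_iff hq).1 hn
  · rintro ⟨⟨y, c⟩, hq, h1, h2, h3⟩
    simp only [many_iff hq, Set.not_infinite] at h1 h2 h3
    obtain rfl : val q c = y := val_eq_of_bdd hq.1 fun N => ⟨N, le_rfl, h1 N⟩
    have e := MM_eq hq.1
    refine ⟨hq, val q c, ⟨(val_nonneg hq.1 c).lt_of_ne fun h => h2 ?_,
      (val_le hq.1 c).lt_of_ne fun h => h2 ?_⟩, ?_⟩
    · refine (Set.finite_singleton fun _ => false).subset fun d hd =>
        unique_of_no_branch hq.1 (by rw [val_false, h]; exact hd) fun n hn => ?_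
      have := hn.1
      rw [show sh n (fun _ => false) = fun _ => false from rfl, val_false] at this
      linarith
    · have e1 : val q (ng fun _ => false) = MM q := by rw [val_ng hq.1, val_false, sub_zero]
      refine (Set.finite_singleton (ng fun _ => false)).subset fun d hd =>
        unique_of_no_branch hq.1 (by rw [e1, ← show val q c = MM q from h]; exact hd) fun n hn => ?_
      have := hn.2
      rw [show sh n (ng fun _ => false) = ng fun _ => false from rfl, e1] at this
      linarith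
    · rw [expansions_eq hq.1]
      have := (countable_of_branch hq.1 (c := c) fun n _ => by
        rw [← T_val hq.1]; exact (h3 n).countable).to_subtype
      have := h2.to_subtype
      exact Cardinal.mk_eq_aleph0 _

variable {Z : Type*} [MeasurableSpace Z] {f g : Z → ℝ}

theorem measurable_T (hf : Measurable f) (hg : Measurable g) {c : Z → ℕ → Bool}
    (hc : ∀ i, Measurable fun z => c z i) (n : ℕ) : Measurable fun z => T (f z) (c z) (g z) n := by
  induction n with
  | zero => exact hg
  | succ n ih => exact (hf.mul ih).sub ((Measurable.of_discrete (f := dg)).comp (hc n))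

theorem measurable_Icc (hf : Measurable f) (hg : Measurable g) :
    Measurable fun z => g z ∈ Set.Icc 0 (MM (f z)) :=
  (measurableSet_setOfPred.1 (measurableSet_le measurable_const hg)).and
    (measurableSet_setOfPred.1 (measurableSet_le hg (measurable_const.div (hf.sub_const 1))))

theorem measurable_Many (hf : Measurable f) (hg : Measurable g) :
    Measurable fun z => Many (f z) (g z) :=
  Measurable.forall fun _ => Measurable.exists fun _ => Measurable.exists fun W =>
    measurable_const.and (Measurable.forall fun k => measurable_Icc hf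
      (measurable_T hf hg (c := fun _ => chi (W k)) (fun _ => measurable_const) _))

theorem measurable_Wit (hf : Measurable f) :
    MeasurableSet {p : Z × ℝ × (ℕ → Bool) | Wit (f p.1) p.2} := by
  have h1 : Measurable fun p : Z × ℝ × (ℕ → Bool) => f p.1 := hf.comp measurable_fst
  have h2 : ∀ i, Measurable fun p : Z × ℝ × (ℕ → Bool) => p.2.2 i := fun i =>
    (measurable_pi_apply i).comp measurable_snd.snd
  have h3 := measurable_T h1 measurable_snd.fst h2
  exact measurableSet_setOfPred.2 ((measurableSet_setOfPred.1 (h1 measurableSet_Ioo)).and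
    ((Measurable.forall fun n => measurable_Icc h1 (h3 n)).and
      ((measurable_Many h1 measurable_snd.fst).and (Measurable.forall fun n =>
        (measurable_Many h1 ((h1.mul (h3 n)).sub
          ((Measurable.of_discrete (f := fun b => dg (!b))).comp (h2 n)))).not))))

end Pool.Agent.MP_b1d139_an

/-! Analytic sets described by infinite cliques. -/

namespace Pool.Agent.MP_b1d139_an

open Filter Topology MeasureTheory

def pre {α : Type} (y : ℕ → α) (n : ℕ) : List α := (List.range n).map y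

theorem pre_length {α : Type} (y : ℕ → α) (n : ℕ) : (pre y n).length = n := by simp [pre]

theorem pre_eq_iff {α : Type} {y z : ℕ → α} {n : ℕ} : pre y n = pre z n ↔ ∀ i < n, y i = z i := by
  simp only [pre, List.map_inj_left, List.mem_range]

theorem pre_le {α : Type} (y : ℕ → α) {m n : ℕ} (h : m ≤ n) : pre y m <+: pre y n :=
  List.IsPrefix.map _ (List.prefix_iff_eq_take.2 (by simp [List.take_range, h]))

def Br (x : List ℕ → Prop) : Prop := ∃ y : ℕ → ℕ, ∀ N, ∃ n ≥ N, x (pre y n)

def nd (t : ℕ) : List ℕ := Denumerable.ofNat (List ℕ) t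

def Rel (x : List ℕ → Prop) (u t : ℕ) : Prop := u < t ∧ nd u <+: nd t ∧ x (nd u) ∧ x (nd t)

theorem clique_of_Br {x : List ℕ → Prop} (h : Br x) :
    ∃ v : ℕ → ℕ, ∀ k m, k < m → Rel x (v k) (v m) := by
  obtain ⟨y, hy⟩ := h
  have step : ∀ s : {n // x (pre y n)}, ∃ t : {n // x (pre y n)}, s.1 < t.1 ∧
      Encodable.encode (pre y s.1) < Encodable.encode (pre y t.1) := by
    intro s
    have hinj : Function.Injective fun n => Encodable.encode (pre y n) := by
      intro a b hab
      have := congrArg List.length (Encodable.encode_injective hab)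
      simpa [pre_length] using this
    have hfin := (Set.finite_Iic (Encodable.encode (pre y s.1))).preimage hinj.injOn
    obtain ⟨K, hK⟩ := hfin.bddAbove
    obtain ⟨n, hn, hg⟩ := hy (K + s.1 + 1)
    refine ⟨⟨n, hg⟩, by simp; omega, ?_⟩
    by_contra hc
    have : n ≤ K := hK (not_lt.1 hc)
    omega
  choose f hf1 hf2 using step
  obtain ⟨n0, -, h0⟩ := hy 0
  let s : ℕ → {n // x (pre y n)} := fun k => Nat.rec ⟨n0, h0⟩ (fun _ t => f t) k
  have m1 : StrictMono fun k => (s k).1 := strictMono_nat_of_lt_succ fun k => hf1 (s k)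
  have m2 : StrictMono fun k => Encodable.encode (pre y (s k).1) :=
    strictMono_nat_of_lt_succ fun k => hf2 (s k)
  refine ⟨fun k => Encodable.encode (pre y (s k).1), fun k m hkm => ⟨m2 hkm, ?_⟩⟩
  simp only [nd, Denumerable.ofNat_encode]
  exact ⟨pre_le y (m1 hkm).le, (s k).2, (s m).2⟩

theorem Br_of_pairs {x : List ℕ → Prop} {w : ℕ → ℕ} (hw : Function.Injective w)
    (h : ∀ k m, ∃ t, Rel x (w k) t ∧ Rel x (w m) t) : Br x := by
  have cmp : ∀ k m, (nd (w k)).length ≤ (nd (w m)).length → nd (w k) <+: nd (w m) := by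
    intro k m hl
    obtain ⟨t, h1, h2⟩ := h k m
    exact List.prefix_of_prefix_length_le h1.2.1 h2.2.1 hl
  have hinj : Function.Injective fun k => (nd (w k)).length := by
    intro k m hl
    have := (cmp k m hl.le).eq_of_length hl
    refine hw ?_
    simpa [nd] using congrArg Encodable.encode this
  have big : ∀ N, ∃ k, N < (nd (w k)).length := by
    intro N
    by_contra hc
    push Not at hc
    exact Set.infinite_univ (((Set.finite_Iic N).preimage hinj.injOn).subset fun k _ => hc k)
  choose κ hκ using big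
  refine ⟨fun i => (nd (w (κ i)))[i]'(hκ i), fun N => ⟨(nd (w (κ N))).length, (hκ N).le, ?_⟩⟩
  have : pre (fun i => (nd (w (κ i)))[i]'(hκ i)) (nd (w (κ N))).length = nd (w (κ N)) := by
    refine List.ext_getElem (pre_length _ _) fun i h1 h2 => ?_
    simp only [pre, List.getElem_map, List.getElem_range]
    rcases le_total (nd (w (κ i))).length (nd (w (κ N))).length with hl | hl
    · exact (cmp _ _ hl).getElem (hκ i)
    · exact ((cmp _ _ hl).getElem h2).symm
  rw [this]
  exact (h (κ N) (κ N)).choose_spec.1.2.2.1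

theorem cyl_mem_nhds (x : ℕ → Bool) (K : ℕ) : {y | ∀ i < K, y i = x i} ∈ 𝓝 x := by
  have : {y : ℕ → Bool | ∀ i < K, y i = x i} = ⋂ i ∈ {i | i < K}, {y | y i = x i} := by
    ext y; simp only [Set.mem_ofPred_eq, Set.mem_iInter]
  rw [this, biInter_mem (Set.finite_lt_nat K)]
  intro i _
  exact ((isOpen_discrete {x i}).preimage
    (continuous_apply (A := fun _ : ℕ => Bool) i)).mem_nhds rfl

theorem exists_tree {X : Type*} [TopologicalSpace X] [T3Space X] {A : Set X}
    (hA : AnalyticSet A) : ∃ G : X → List ℕ → Prop, (∀ s, IsClosed {x | G x s}) ∧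
      A = {x | Br (G x)} := by
  rw [AnalyticSet] at hA
  rcases hA with rfl | ⟨f, hf, rfl⟩
  · refine ⟨fun _ _ => False, fun _ => isClosed_empty, ?_⟩
    ext x; simp [Br]
  refine ⟨fun x s => x ∈ closure (f '' {z | pre z s.length = s}), fun _ => isClosed_closure, ?_⟩
  ext x
  constructor
  · rintro ⟨y, rfl⟩
    exact ⟨y, fun N => ⟨N, le_rfl, subset_closure ⟨y, by simp [pre_length], rfl⟩⟩⟩
  · rintro ⟨y, hy⟩
    refine ⟨y, (Specializes.eq ?_).symm⟩
    rw [specializes_iff_pure, (closed_nhds_basis (f y)).ge_iff]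
    rintro C ⟨h1, h2⟩
    have h3 : f ⁻¹' C ∈ 𝓝 y := hf.continuousAt h1
    rw [nhds_pi, mem_pi'] at h3
    obtain ⟨I, t, ht, h4⟩ := h3
    obtain ⟨n, hn, h5⟩ := hy (I.sup id + 1)
    refine closure_minimal ?_ h2 h5
    rintro _ ⟨z, hz, rfl⟩
    simp only [Set.mem_ofPred_eq, pre_length, pre_eq_iff] at hz
    refine h4 fun i hi => ?_
    have : i ≤ I.sup id := Finset.le_sup (f := id) hi
    rw [hz i (by omega)]
    exact mem_of_mem_nhds (ht i)

end Pool.Agent.MP_b1d139_an

/-! The analytic sets are exactly the Borel preimages of the set of bases. -/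

namespace Pool.Agent.MP_b1d139_an

open Filter Topology MeasureTheory

def fx (b : ℕ → Bool) : ℕ → Bool := fun i => if i < 8 then wd 60 i else b i

theorem fx_pre (b : ℕ → Bool) : ∀ i < 8, fx b i = wd 60 i := fun i hi => by simp [fx, hi]

noncomputable def rt (b : ℕ → Bool) : ℝ := (exists_root (gam_pre (fx_pre b))).choose

theorem rt_hy (b : ℕ → Bool) : Hy (rt b) (gam (fx b)) :=
  ⟨(exists_root (gam_pre (fx_pre b))).choose_spec.1,
    (exists_root (gam_pre (fx_pre b))).choose_spec.2, fun i hi => by simp [gam, hi],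
    gam_nt (fx_pre b 0 (by omega))⟩

theorem continuous_rt : Continuous rt := by
  refine continuous_iff_continuousAt.2 fun b => Metric.tendsto_nhds.2 fun e he => ?_
  have H := rt_hy b
  have n := H.J.nm
  have hq := n.one_lt
  obtain ⟨m, hm⟩ := pow_unbounded_of_one_lt (6 / e) hq
  filter_upwards [cyl_mem_nhds b m] with b' hb
  have H' := rt_hy b'
  have hag : ∀ i < m, gam (fx b') i = gam (fx b) i := fun i hi => by
    simp only [gam, fx]
    rw [hb _ (by omega)]
  have h1 := val_lip_inv n H'.J.nm (c := al (gam (fx b'))) rfl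
  have h2 := val_agree hq (L := m) fun i hi => al_congr hag i (by omega)
  rw [H.F] at h2
  rw [H'.F] at h1
  have h3 : |rt b ^ m * (val (rt b) (al (gam (fx b'))) - 1)| ≤ 1.3 := by
    rw [h2, abs_le]
    constructor <;> linarith only [val_nonneg hq (sh m (al (gam (fx b')))), val_le hq (sh m (al (gam (fx b')))), val_nonneg hq (sh m (al (gam (fx b)))), val_le hq (sh m (al (gam (fx b)))), n.bM]
  rw [abs_mul, abs_of_pos (by positivity : 0 < rt b ^ m)] at h3
  rw [div_lt_iff₀ he] at hm
  rw [Real.dist_eq, abs_sub_comm]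
  by_contra hcon
  push Not at hcon
  have p : 0 < rt b ^ m := by positivity
  nlinarith only [he, hm, h1, h3, hcon]

theorem measurable_bE {X : Type*} [MeasurableSpace X] {G : X → List ℕ → Prop}
    (hG : ∀ s, Measurable fun x => G x s) : Measurable fun x => bE (Rel (G x)) := by
  have hD : ∀ d, Measurable fun x => InD (Rel (G x)) d := fun d =>
    Measurable.exists fun u => Measurable.exists fun t => measurable_const.and
      ((measurable_const.and (measurable_const.and ((hG _).and (hG _)))).and measurable_const)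
  have hB : ∀ e, Measurable fun x => Bad (Rel (G x)) e := fun e =>
    Measurable.exists fun d => (hD d).and measurable_const
  have hE : ∀ n, Measurable fun x => InE (Rel (G x)) n := fun n =>
    measurable_const.or ((Measurable.exists fun d => (hD d).and measurable_const).or
      (Measurable.exists fun p => measurable_const.or (measurable_const.and (hB _).not)))
  refine measurable_pi_lambda _ fun n => measurable_to_bool ?_
  convert measurableSet_setOfPred.2 (hE n) using 1
  ext x; simp [bE]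

noncomputable def Phi (x : List ℕ → Prop) : ℝ := rt (bE (Rel x))

theorem Phi_hy (x : List ℕ → Prop) : Hy (Phi x) (gam (bE (Rel x))) := by
  have : fx (bE (Rel x)) = bE (Rel x) := by
    funext i; unfold fx; split_ifs with h
    · exact (bE_pre i h).symm
    · rfl
  have H := rt_hy (bE (Rel x))
  rwa [this] at H

theorem Phi_mem {x : List ℕ → Prop} (hx : Br x) : Phi x ∈ BAleph0 := by
  obtain ⟨v, hv⟩ := clique_of_Br hx
  exact mem_of_clique (Phi_hy x) fun k m hkm => ⟨(hv k m hkm).1, hv k m hkm⟩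

theorem Phi_sat {x y : List ℕ → Prop} (h : Phi x = Phi y) (hx : Br x) : Br y := by
  have H := Phi_hy x
  have H' := Phi_hy y
  rw [← h] at H'
  have n := H.J.nm
  have e1 : V (Phi x) (gam (bE (Rel x))) = V (Phi x) (gam (bE (Rel y))) := by
    linarith [cube_eq n.one_lt H.F, cube_eq n.one_lt H'.F]
  have e2 : gam (bE (Rel x)) = gam (bE (Rel y)) := by
    by_contra hne
    obtain ⟨j, j1, j2, j3⟩ := lex_of_le n e1.ge hne
    exact (V_lt n j3 j1 j2).ne' e1
  have e3 : ∀ m, InE (Rel x) m → InE (Rel y) m := by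
    intro m hm
    by_contra hm'
    have := congrFun e2 (2 * m + 3)
    rw [gam_E (by omega) (by rwa [show (2 * m + 3 - 3) / 2 = m by omega]),
      gam_N (by omega) (by rwa [show (2 * m + 3 - 3) / 2 = m by omega]), decide_eq_decide] at this
    omega
  obtain ⟨v, hv⟩ := clique_of_Br hx
  have hv' : ∀ k m, k < m → Rel y (v k) (v m) := by
    intro k m hkm
    have h1 := (hv k m hkm).1
    have h2 : FF (v m) - FF (v k) + FF (v k) = FF (v m) := by have := FF_lt h1; omega
    exact (InE_iff_rel h1 h2).1 (e3 _ ((InE_iff_rel h1 h2).2 (hv k m hkm)))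
  exact Br_of_pairs (w := v) (StrictMono.injective fun k m hkm => (hv k m hkm).1) fun k m =>
    ⟨v (k + m + 1), hv' _ _ (by omega), hv' _ _ (by omega)⟩

theorem reduce {X : Type*} [MeasurableSpace X] {G : X → List ℕ → Prop}
    (hG : ∀ s, Measurable fun x => G x s) :
    ∃ f : X → ℝ, Measurable f ∧ {x | Br (G x)} = f ⁻¹' BAleph0 := by
  classical
  have hP : Measurable fun x => Phi (G x) := continuous_rt.measurable.comp (measurable_bE hG)
  have hA := Algebraic.countable ℤ ℝ
  have h : Measurable fun z : ℝ => if z ∈ {z | IsAlgebraic ℤ z} \ Phi '' {x | Br x} then 0 else z :=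
    Measurable.ite (hA.mono Set.sdiff_subset).measurableSet measurable_const measurable_id
  refine ⟨_, h.comp hP, ?_⟩
  ext x
  simp only [Set.mem_preimage, Function.comp]
  constructor
  · intro hx
    rw [if_neg fun h => h.2 ⟨_, hx, rfl⟩]
    exact Phi_mem hx
  · intro hx
    split_ifs at hx with h1
    · exact absurd hx.1.1 (by norm_num)
    · by_cases h2 : IsAlgebraic ℤ (Phi (G x))
      · obtain ⟨y, hy, e⟩ := not_not.1 fun h3 => h1 ⟨h2, h3⟩
        exact Phi_sat e hy
      · obtain ⟨w, w1, w2⟩ := Cl_of_mem (Phi_hy _) h2 hx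
        exact Br_of_pairs w1 w2

theorem complete {X : Type*} [TopologicalSpace X] [PolishSpace X] [MeasurableSpace X]
    [BorelSpace X] (A : Set X) :
    AnalyticSet A ↔ ∃ f : X → ℝ, Measurable f ∧ A = f ⁻¹' BAleph0 := by
  constructor
  · intro hA
    obtain ⟨G, hG, rfl⟩ := exists_tree hA
    exact reduce fun s => measurableSet_setOfPred.1 (hG s).measurableSet
  · rintro ⟨f, hf, rfl⟩
    convert (measurable_Wit hf).analyticSet_image measurable_fst using 1
    ext x
    simp only [Set.mem_preimage, mem_iff_wit, Prod.exists, Set.mem_image, Set.mem_ofPred_eq, exists_and_right, exists_eq_right]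

end Pool.Agent.MP_b1d139_an

/-! The set of bases with a point having countably infinitely many expansions is not Borel. -/

namespace Pool.Agent.MP_b1d139_an

open Filter Topology MeasureTheory

def good (x : ℕ → Bool) (s : List ℕ) : Prop :=
  x (Encodable.encode (s, pre x s.length)) = true

theorem not_measurable_Br : ¬ MeasurableSet {x | Br (good x)} := by
  classical
  intro h
  have : PolishSpace (ℕ → Bool) := { }
  have h1 := h.compl.analyticSet
  rw [AnalyticSet] at h1
  rcases h1 with h1 | ⟨f, hf, h1⟩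
  · have : (fun _ => false) ∈ {x | Br (good x)}ᶜ := by
      rintro ⟨y, hy⟩
      obtain ⟨n, -, hn⟩ := hy 0
      cases hn
    rw [h1] at this; exact this
  let e : ℕ → Bool := fun n => decide (∃ (s : List ℕ) (t : List Bool),
    Encodable.encode (s, t) = n ∧ ∃ y, pre y s.length = s ∧ pre (f y) s.length = t)
  have he : ∀ s, good e s ↔ ∃ y, pre y s.length = s ∧ pre (f y) s.length = pre e s.length := by
    intro s
    simp only [good, e, decide_eq_true_eq]
    constructor
    · rintro ⟨s', t, h2, h3⟩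
      obtain ⟨rfl, rfl⟩ := Prod.mk.inj (Encodable.encode_injective h2)
      exact h3
    · exact fun h => ⟨s, _, rfl, h⟩
  by_cases hb : Br (good e)
  · obtain ⟨y, hy⟩ := id hb
    choose n hn hg using hy
    choose z hz1 hz2 using fun N => (he _).1 (hg N)
    simp only [pre_length, pre_eq_iff] at hz1 hz2
    have t1 : Tendsto z atTop (𝓝 y) := tendsto_pi_nhds.2 fun i =>
      tendsto_const_nhds.congr' (eventually_atTop.2 ⟨i + 1, fun N hN =>
        (hz1 N i (by have := hn N; omega)).symm⟩)
    have t2 : Tendsto (fun N => f (z N)) atTop (𝓝 e) := tendsto_pi_nhds.2 fun i =>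
      tendsto_const_nhds.congr' (eventually_atTop.2 ⟨i + 1, fun N hN =>
        (hz2 N i (by have := hn N; omega)).symm⟩)
    have : e ∈ {x | Br (good x)}ᶜ := by
      rw [← h1]; exact ⟨y, tendsto_nhds_unique ((hf.tendsto y).comp t1) t2⟩
    exact this hb
  · have : e ∈ Set.range f := by rw [h1]; exact hb
    obtain ⟨y, hy⟩ := this
    exact hb ⟨y, fun N => ⟨N, le_rfl, (he _).2 ⟨y, by rw [pre_length], by rw [hy]⟩⟩⟩

theorem measurable_good (s : List ℕ) : MeasurableSet {x | good x s} := by
  refine IsOpen.measurableSet (isOpen_iff_mem_nhds.2 fun x hx => ?_)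
  refine mem_of_superset (cyl_mem_nhds x
    (s.length + Encodable.encode (s, pre x s.length) + 1)) fun y hy => ?_
  have : pre y s.length = pre x s.length := pre_eq_iff.2 fun i hi => hy i (by omega)
  simp only [Set.mem_ofPred_eq, good] at hx ⊢
  rw [this, hy _ (by omega), hx]

theorem not_measurable_B : ¬ MeasurableSet BAleph0 := by
  intro hB
  obtain ⟨f, hf, e⟩ := reduce fun s => measurableSet_setOfPred.1 (measurable_good s)
  exact not_measurable_Br (e ▸ hf hB)

end Pool.Agent.MP_b1d139_an
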